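import Pool.Agent.Helper56.FM.St

set_option autoImplicit false

open Set Filter Topology

noncomputable section

namespace Pool.Agent.Helper56.FM

open Pool.Agent.Helper54.TRI

private theorem cancel_sum_CH (G : Rf → Rf → ℝ) : ∀ (n : ℕ) (L : List (Rf × Rf)),
    (∀ d ∈ L, G d.2 d.1 = - G d.1 d.2) → cancel n L = true →
    (L.map (fun d => G d.1 d.2)).sum = 0 := by
  intro n
  induction n with
  | zero =>
    intro L _ h
    have h' : L = [] := by
      rw [cancel] at h
      exact List.isEmpty_iff.1 h
    rw [h', List.map_nil, List.sum_nil]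
  | succ n ih =>
    intro L hL h
    cases L with
    | nil => rw [List.map_nil, List.sum_nil]
    | cons d t =>
      rw [cancel] at h
      have h2 : t.contains (d.2, d.1) = true ∧ cancel n (t.erase (d.2, d.1)) = true := by
        rwa [Bool.and_eq_true] at h
      have h1 : (d.2, d.1) ∈ t := by
        have := h2.1
        rwa [List.contains_iff_mem] at this
      have hperm := List.perm_cons_erase h1
      have hs := (hperm.map (fun d : Rf × Rf => G d.1 d.2)).sum_eq
      have hi := ih (t.erase (d.2, d.1))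
        (fun d' hd' => hL d' (List.mem_cons_of_mem _ (List.mem_of_mem_erase hd'))) h2.2
      rw [List.map_cons, List.sum_cons, hs, List.map_cons, List.sum_cons, hi]
      show G d.1 d.2 + (G d.2 d.1 + 0) = 0
      rw [hL d List.mem_cons_self]
      ring

private theorem sum_flatMap_CH {A B : Type} (L : List A) (F : A → List B) (f : B → ℝ) :
    ((L.flatMap F).map f).sum = (L.map (fun x => ((F x).map f).sum)).sum := by
  induction L with
  | nil => simp
  | cons a L ih => rw [List.flatMap_cons, List.map_append, List.sum_append, ih, List.map_cons, List.sum_cons]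

private theorem sum_range_CH (n : ℕ) (k : ℕ → ℝ) : ((List.range n).map k).sum = ∑ a : Fin n, k a.val := by
  induction n with
  | zero => simp
  | succ n ih =>
    rw [List.range_succ, List.map_append, List.sum_append, ih, Fin.sum_univ_castSucc]
    simp

private theorem sum_list_CH {A : Type} (L : List A) (d : A) (h : A → ℝ) :
    (L.map h).sum = ∑ c : Fin L.length, h (L.getD c.val d) := by
  have : ∀ c : Fin L.length, h (L.getD c.val d) = h L[c.val] := fun c => by
    rw [List.getD_eq_getElem _ _ c.isLt]
  rw [Finset.sum_congr rfl fun c _ => this c]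
  exact (Fin.sum_univ_fun_getElem L h).symm

private theorem sides_CH {Q : Type} (M : Ops Q) (e : Q → ℂ) (X : Cert Q) (t : Tr) (g : ℂ → ℂ → ℝ) :
    ((sides t).map (fun d => g (X.pt M e d.1) (X.pt M e d.2))).sum =
      ∑ s : Fin 3, g (X.ptr M e t s) (X.ptr M e t (s + 1)) := by
  rw [Fin.sum_univ_three]
  simp [sides, Cert.ptr, trv]
  ring

theorem m_CH : StCH := by
  intro Q M β e Γ hM X hC hG g h1 h2 h3
  have hsh1 : ∀ r : Rf, X.pt M e (sh1 r) = β * X.pt M e r := by
    intro r
    show e (M.mul (r.2 + 1) _) = β * e (M.mul r.2 _)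
    rw [hM.mul, hM.mul, pow_succ]
    show _ * e (X.V.getD r.1 (M.zero, 0)).1 = _
    ring
  -- triangles
  have hT : ∀ (c : Fin X.CS.length) (a : Fin (X.C M e c).n) (s : Fin 3),
      TT (X.C M e) ⟨c, a⟩ s = X.ptr M e ((X.cl c.val).tr a.val) s := fun c a s => (hG c).2.2.1 a s
  have hn : ∀ c : Fin X.CS.length, (X.C M e c).n = (X.cl c.val).n := fun c => (hG c).1
  -- antisymmetry for the sides
  have hanti : ∀ (c : Fin X.CS.length) (a : ℕ), a < (X.cl c.val).n → ∀ s : Fin 3,
      g (X.ptr M e ((X.cl c.val).tr a) (s + 1)) (X.ptr M e ((X.cl c.val).tr a) s) =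
        - g (X.ptr M e ((X.cl c.val).tr a) s) (X.ptr M e ((X.cl c.val).tr a) (s + 1)) := by
    intro c a ha s
    have := h1 ⟨c, ⟨a, by rw [hn c]; exact ha⟩⟩ s
    rw [hT, hT] at this
    exact this
  have hdarts : ∀ d ∈ X.darts, g (X.pt M e d.2) (X.pt M e d.1) =
      - g (X.pt M e d.1) (X.pt M e d.2) := by
    intro d hmem
    rw [Cert.darts, List.mem_flatMap] at hmem
    obtain ⟨c, hc, hmem⟩ := hmem
    rw [List.mem_flatMap] at hmem
    obtain ⟨a, ha, hmem⟩ := hmem
    obtain ⟨i, hi, rfl⟩ := List.getElem_of_mem hc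
    have hcl : X.cl i = X.CS[i] := List.getD_eq_getElem _ _ hi
    have ha' : a < (X.cl i).n := by rw [hcl]; exact List.mem_range.1 ha
    have h0 := hanti ⟨i, hi⟩ a ha' 0
    have h1' := hanti ⟨i, hi⟩ a ha' 1
    have h2' := hanti ⟨i, hi⟩ a ha' 2
    simp only at h0 h1' h2'
    rw [hcl] at h0 h1' h2'
    simp only [sides, List.mem_cons, List.not_mem_nil, or_false] at hmem
    rcases hmem with rfl | rfl | rfl
    · exact h0
    · exact h1'
    · exact h2'
  -- the sum over the darts
  have hsum : (X.darts.map (fun d => g (X.pt M e d.1) (X.pt M e d.2))).sum =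
      ∑ i : Ix (X.C M e), ∑ s : Fin 3, g (TT (X.C M e) i s) (TT (X.C M e) i (s + 1)) := by
    rw [Cert.darts, sum_flatMap_CH, sum_list_CH X.CS (.P ((0, 0), (0, 0), (0, 0))), Fintype.sum_sigma]
    refine Finset.sum_congr rfl fun c _ => ?_
    rw [sum_flatMap_CH]
    show ((List.range (X.cl c.val).n).map _).sum = _
    rw [← hn c, sum_range_CH]
    refine Finset.sum_congr rfl fun a _ => ?_
    show ((sides ((X.cl c.val).tr a.val)).map
      (fun d => g (X.pt M e d.1) (X.pt M e d.2))).sum = _
    rw [sides_CH]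
    refine Finset.sum_congr rfl fun s _ => ?_
    rw [hT, hT]
  rw [← hsum]
  -- the cancellation
  have hcan := cancel_sum_CH (fun r r' => g (X.pt M e r) (X.pt M e r')) 4000
    (X.darts ++ cyc X.seam ++ (cyc X.seam).map fun d => (sh1 d.2, sh1 d.1)) ?_ hC
  · rw [List.map_append, List.sum_append, List.map_append, List.sum_append] at hcan
    have e1 : ((((cyc X.seam).map (fun d => (X.pt M e d.1, X.pt M e d.2))).map
        (fun d => g (β * d.1) (β * d.2) - g d.1 d.2)).sum : ℝ) =
        - ((((cyc X.seam).map fun d => (sh1 d.2, sh1 d.1)).map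
          (fun d => g (X.pt M e d.1) (X.pt M e d.2))).sum) -
        ((cyc X.seam).map (fun d => g (X.pt M e d.1) (X.pt M e d.2))).sum := by
      rw [List.map_map, List.map_map]
      have hanti3 : ∀ d ∈ cyc X.seam, g (β * X.pt M e d.2) (β * X.pt M e d.1) =
          - g (β * X.pt M e d.1) (β * X.pt M e d.2) := fun d hmem =>
        h3 (X.pt M e d.1, X.pt M e d.2) (List.mem_map.2 ⟨d, hmem, rfl⟩)
      generalize cyc X.seam = L at hanti3
      induction L with
      | nil => simp
      | cons d L ih =>
        have ih' := ih (fun d' hd' => hanti3 d' (List.mem_cons_of_mem _ hd'))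
        have hh := hanti3 d List.mem_cons_self
        simp only [List.map_cons, List.sum_cons, Function.comp_apply] at ih' ⊢
        rw [ih', hsh1, hsh1, hh]
        ring
    rw [e1]
    linarith
  · intro d hmem
    rw [List.mem_append, List.mem_append] at hmem
    rcases hmem with (hmem | hmem) | hmem
    · exact hdarts d hmem
    · exact h2 (X.pt M e d.1, X.pt M e d.2) (List.mem_map.2 ⟨d, hmem, rfl⟩)
    · obtain ⟨d', hd', rfl⟩ := List.mem_map.1 hmem
      have := h3 (X.pt M e d'.1, X.pt M e d'.2) (List.mem_map.2 ⟨d', hd', rfl⟩)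
      show g (X.pt M e (sh1 d'.1)) (X.pt M e (sh1 d'.2)) =
        - g (X.pt M e (sh1 d'.2)) (X.pt M e (sh1 d'.1))
      rw [hsh1, hsh1]
      simp only at this
      linarith

end Pool.Agent.Helper56.FM
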