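import Pool.Agent.Helper56.FM.Fam

/-!
# Project FM, module EX: explicit matrices
-/

set_option autoImplicit false

open Set Filter Topology Matrix
open Pool.Agent.Helper54.Wav

noncomputable section

namespace Pool.Agent.Helper56.FM

open Pool.Agent.Helper54.TRI

private theorem exp_EX (r : ℝ) (h0 : 0 < r) :
    Wav.Expansive (!![-(1 + r), -(r ^ 2 + r + 1); 1, 0] : Matrix (Fin 2) (Fin 2) ℝ) := by
  intro z hz
  rw [Matrix.mem_spectrum_iff_isRoot_charpoly, Matrix.charpoly_fin_two] at hz
  simp only [Polynomial.IsRoot.def, Polynomial.eval_add, Polynomial.eval_sub, Polynomial.eval_pow,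
    Polynomial.eval_X, Polynomial.eval_mul, Polynomial.eval_C, Matrix.trace_fin_two,
    Matrix.det_fin_two, Matrix.map_apply, Complex.coe_algebraMap] at hz
  simp at hz
  -- `z² + (1 + r) z + (r² + r + 1) = 0`
  have hre := congrArg Complex.re hz
  have him := congrArg Complex.im hz
  simp [pow_two] at hre him
  have hy : z.im ≠ 0 := by
    intro hy
    rw [hy] at hre
    have h5 : 0 ≤ (z.re + (1 + r) / 2) ^ 2 := sq_nonneg _
    nlinarith
  have hx : 2 * z.re = -(1 + r) := by
    have : z.im * (2 * z.re + (1 + r)) = 0 := by linarith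
    rcases mul_eq_zero.1 this with h | h
    · exact absurd h hy
    · linarith
  have hn : z.re * z.re + z.im * z.im = r ^ 2 + r + 1 := by
    have e : 1 + r = -(2 * z.re) := by linarith
    nlinarith
  have h8 : 1 < ‖z‖ ^ 2 := by
    rw [← Complex.normSq_eq_norm_sq, Complex.normSq_apply, hn]
    nlinarith
  by_contra h9
  have h10 : ‖z‖ ≤ 1 := not_lt.1 h9
  nlinarith [norm_nonneg z]

theorem m_EX (_hr : StRF) : StEX := by
  intro s r β h
  refine ⟨exp_EX r h.pos, ?_, ![1, 0], ![0, 1], ?_, ?_⟩
  · have h1 := h.real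
    ext i j
    fin_cases i <;> fin_cases j <;>
      simp [pow_succ]
    · linear_combination h1
    · ring
    · ring
    · linear_combination h1
  · intro h0
    have := congrFun h0 1
    simp at this
  · ext i
    fin_cases i <;> simp [Pool.Agent.Helper54.Wav.zv, Matrix.mulVec, dotProduct, Fin.sum_univ_two]

end Pool.Agent.Helper56.FM
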