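import Pool.Agent.Helper56.FM.St

/-!
# Project FM, module GG: the geometric part of a good cluster
-/

set_option autoImplicit false

open Set Filter Topology

noncomputable section

namespace Pool.Agent.Helper56.FM

open Pool.Agent.Helper54.TRI

private theorem neg_GG {p q : ℂ} (h : 0 < ht 0 q p) : ht p q 0 < 0 := by
  unfold ht at h ⊢
  rw [sub_zero, sub_zero] at h
  have hq : q ≠ 0 := by
    rintro rfl
    simp at h
  set z := p / q with hz
  have h1 : (1 : ℂ) - z ≠ 0 := by
    intro h2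
    have h3 := congrArg Complex.im h2
    simp only [Complex.sub_im, Complex.one_im, Complex.zero_im, zero_sub, neg_eq_zero] at h3
    rw [h3] at h
    exact lt_irrefl _ h
  have h2 : (0 - p) / (q - p) = 1 - (1 - z)⁻¹ := by
    have h4 : p = z * q := by rw [hz, div_mul_cancel₀ _ hq]
    have h5 : q - z * q ≠ 0 := by
      have : q - z * q = (1 - z) * q := by ring
      rw [this]
      exact mul_ne_zero h1 hq
    rw [h4]
    field_simp
    ring
  have h6 : 0 < Complex.normSq (1 - z) := Complex.normSq_pos.2 h1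
  rw [h2, Complex.sub_im, Complex.one_im, Complex.inv_im, Complex.sub_im, Complex.one_im, zero_sub,
    zero_sub, neg_neg, neg_lt_zero]
  exact div_pos h h6

private theorem data_GG {Q : Type} (M : Ops Q) (e : Q → ℂ) (hz : ∀ u v, e (M.sub u v) = e u - e v)
    (X : Cert Q) (c : CD) : (X.clus M e c).n = c.n ∧ (X.clus M e c).P = X.ptr M e (c.tr 0) ∧
      ∀ a : Fin (X.clus M e c).n, (X.clus M e c).w a = e (X.wz M c a.val) := by
  have h0 : ∀ c : CD, e (X.wz M c 0) = 0 := by
    intro c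
    unfold Cert.wz
    rw [hz, sub_self]
  cases c with
  | P t =>
    refine ⟨rfl, rfl, fun a => ?_⟩
    have ha : a.val = 0 := by
      have : a.val < 1 := a.2
      omega
    rw [ha, h0]
    rfl
  | W s t0 t1 =>
    refine ⟨rfl, rfl, fun a => ?_⟩
    have ha : a.val < 2 := a.2
    obtain ⟨a, ha'⟩ := a
    interval_cases a
    · rw [h0]
      rfl
    · rfl
  | T t0 t1 t2 t3 => exact ⟨rfl, rfl, fun a => rfl⟩
  | E t0 t1 t2 => exact ⟨rfl, rfl, fun a => rfl⟩

theorem m_GG : StGG := by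
  intro Q M β e Γ hM X c hok
  have hz := hM.sub
  obtain ⟨hn, hP, hw⟩ := data_GG M e hz X c
  unfold Cert.okG at hok
  rw [Bool.and_eq_true, List.all_eq_true] at hok
  obtain ⟨hpos, hall⟩ := hok
  have hall' : ∀ a < c.n,
      e (X.vz M (c.tr a).2.1) - e (X.vz M (c.tr 0).2.1) = e (X.wz M c a) ∧
      e (X.vz M (c.tr a).2.2) - e (X.vz M (c.tr 0).2.2) = e (X.wz M c a) ∧
      (M.pos M.zero (X.vz M (c.tr a).2.1) (X.vz M (c.tr a).1) = true ∨
      M.pos M.zero (X.vz M (c.tr a).2.2) (X.vz M (c.tr a).2.1) = true ∨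
      M.pos M.zero (X.vz M (c.tr a).1) (X.vz M (c.tr a).2.2) = true) := by
    intro a ha
    have h := hall a (List.mem_range.2 ha)
    simp only [Bool.and_eq_true, Bool.or_eq_true] at h
    obtain ⟨h1, h2, h3⟩ := h
    have e1 := hM.isz _ h1
    have e2 := hM.isz _ h2
    rw [hz, hz] at e1 e2
    exact ⟨sub_eq_zero.1 e1, sub_eq_zero.1 e2, h3⟩
  have h0 : ∀ t : Tr, X.ptr M e t 0 = e (X.vz M t.1) := fun t => rfl
  have h1 : ∀ t : Tr, X.ptr M e t 1 = e (X.vz M t.2.1) := fun t => rfl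
  have h2 : ∀ t : Tr, X.ptr M e t 2 = e (X.vz M t.2.2) := fun t => rfl
  have htr : ∀ (a : Fin (X.clus M e c).n) (s : Fin 3),
      (X.clus M e c).P s + (X.clus M e c).w a = X.ptr M e (c.tr a.val) s := by
    intro a s
    have ha : a.val < c.n := by
      rw [← hn]
      exact a.2
    obtain ⟨e1, e2, -⟩ := hall' a.val ha
    rw [hP, hw]
    fin_cases s
    · show X.ptr M e (c.tr 0) 0 + _ = X.ptr M e (c.tr a.val) 0
      rw [h0, h0]
      unfold Cert.wz
      rw [hz]
      ring
    · show X.ptr M e (c.tr 0) 1 + _ = X.ptr M e (c.tr a.val) 1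
      rw [h1, h1, ← e1]
      ring
    · show X.ptr M e (c.tr 0) 2 + _ = X.ptr M e (c.tr a.val) 2
      rw [h2, h2, ← e2]
      ring
  refine ⟨hn, ?_, htr, ?_⟩
  · rw [hP]
    unfold Pos
    rw [h0, h1, h2]
    exact hM.pos _ _ _ hpos
  · intro a hmem
    have ha : a.val < c.n := by
      rw [← hn]
      exact a.2
    obtain ⟨-, -, e3⟩ := hall' a.val ha
    have hfun : (fun s => (X.clus M e c).P s + (X.clus M e c).w a) = X.ptr M e (c.tr a.val) :=
      funext fun s => htr a s
    rw [hfun] at hmem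
    rcases e3 with h | h | h
    · have h3 := hM.pos _ _ _ h
      rw [hM.zero] at h3
      have h4 := neg_GG h3
      have h5 : 0 ≤ ht (X.ptr M e (c.tr a.val) 0) (X.ptr M e (c.tr a.val) 1) 0 := hmem 0
      rw [h0, h1] at h5
      exact absurd h4 (not_lt.2 h5)
    · have h3 := hM.pos _ _ _ h
      rw [hM.zero] at h3
      have h4 := neg_GG h3
      have h5 : 0 ≤ ht (X.ptr M e (c.tr a.val) 1) (X.ptr M e (c.tr a.val) 2) 0 := hmem 1
      rw [h1, h2] at h5
      exact absurd h4 (not_lt.2 h5)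
    · have h3 := hM.pos _ _ _ h
      rw [hM.zero] at h3
      have h4 := neg_GG h3
      have h5 : 0 ≤ ht (X.ptr M e (c.tr a.val) 2) (X.ptr M e (c.tr a.val) 0) 0 := hmem 2
      rw [h2, h0] at h5
      exact absurd h4 (not_lt.2 h5)

end Pool.Agent.Helper56.FM
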