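import Pool.Agent.Helper56.FM.St

/-! # Project FM: module GT (tetrahedral clusters of a certificate) -/

set_option autoImplicit false

open Set Filter Topology

noncomputable section

namespace Pool.Agent.Helper56.FM

open Pool.Agent.Helper54.TRI

private theorem ofNat_GT (a : Fin 4) : (Fin.ofNat 4 a.val : Fin 4) = a := by
  apply Fin.ext
  simp

private theorem sT_GT (a : Fin 4) : sT a * sT a = 1 := by
  unfold sT
  split_ifs <;> norm_num

theorem m_GT (hk : StKT) : StGT := by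
  intro Q M β e Γ hM X t0 t1 t2 t3 hok
  simp only [Cert.okL, Bool.and_eq_true, decide_eq_true_eq] at hok
  obtain ⟨hl, hd, hg⟩ := hok
  have winj : Function.Injective (fun a : Fin 4 => e (X.wz M (.T t0 t1 t2 t3) a.val)) := by
    intro a b hab
    by_contra hne
    have h1 := hM.nz _ (hd a b hne).2
    rw [hM.sub] at h1
    exact h1 (sub_eq_zero.2 hab)
  have Linj : Function.Injective (X.LT M (.T t0 t1 t2 t3)) := by
    intro a b hab
    by_contra hne
    exact (hd a b hne).1 hab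
  have hΓ : ∀ a b m : Fin 4, a ≠ m → b ≠ m → Γ (X.LT M (.T t0 t1 t2 t3) m)
      (e (X.wz M (.T t0 t1 t2 t3) b.val) - e (X.wz M (.T t0 t1 t2 t3) a.val)) := by
    intro a b m ha hb
    rw [← hM.sub]
    exact hM.inG _ _ (hg a b m ha hb)
  obtain ⟨k1, k2, k3, k4⟩ := hk Γ (X.ptr M e t0)
    (fun a : Fin 4 => e (X.wz M (.T t0 t1 t2 t3) a.val)) (X.LT M (.T t0 t1 t2 t3)) sT
    winj Linj sT_GT hΓ
  have hE : ∀ (a : Fin 4) (s : Fin 3), (X.zf M (.T t0 t1 t2 t3) a.val s).toEF e =
      fT (fun a : Fin 4 => e (X.wz M (.T t0 t1 t2 t3) a.val)) (X.LT M (.T t0 t1 t2 t3)) sT a s := by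
    intro a s
    simp only [Cert.zf, ZF.toEF, fT, ofNat_GT, hM.sub]
  refine ⟨k1, ?_, ?_, ?_⟩
  · intro a s t h0 h1
    have := hE a s
    rw [this]
    exact k2 a s t h0 h1
  · intro a s
    have h1 : X.lz M (trv ((CD.T t0 t1 t2 t3).tr a.val) s) =
      X.LT M (.T t0 t1 t2 t3) (inv4 s a) := hl a s
    rw [h1]
    exact k3 a s
  · intro a s
    have := hE a s
    rw [this]
    exact k4 a s

end Pool.Agent.Helper56.FM
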