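import Pool.Agent.Helper56.FM.Fam

/-!
# Project FM, module JJ: from any exponent to the exponent one, for any cubic number
(adapted from Pool/Agent/Helper54/TRI/M_J1.lean)
-/

set_option autoImplicit false

open Set Filter Topology Matrix
open Pool.Agent.Helper54.Wav

noncomputable section

namespace Pool.Agent.Helper56.FM

open Pool.Agent.Helper54.TRI

/-- four elements of a field of degree at most three -/
private theorem dep_JJ {β : ℂ} {a b c : ℚ} (hβ3 : β ^ 3 = (a : ℂ) * β ^ 2 + (b : ℂ) * β + (c : ℂ)) (κ : ℂ)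
    (hκ : κ ∈ IntermediateField.adjoin ℚ {β}) :
    ∃ g : Fin 4 → ℤ, (∃ i, g i ≠ 0) ∧ (g 0 : ℂ) + g 1 * κ + g 2 * β + g 3 * (β * κ) = 0 := by
  classical
  have hβ : β ∈ IntermediateField.adjoin ℚ {β} := IntermediateField.mem_adjoin_simple_self ℚ β
  set P : Polynomial ℚ := Polynomial.X ^ 3 - Polynomial.C a * Polynomial.X ^ 2 - Polynomial.C b * Polynomial.X -
    Polynomial.C c with hP
  have hmon : P.Monic := by
    rw [hP]
    monicity!
  have hint : IsIntegral ℚ β := by
    refine ⟨P, hmon, ?_⟩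
    rw [hP]
    simp only [Polynomial.eval₂_sub, Polynomial.eval₂_pow, Polynomial.eval₂_X, Polynomial.eval₂_mul,
      Polynomial.eval₂_C, eq_ratCast]
    linear_combination hβ3
  have hdeg : (minpoly ℚ β).natDegree ≤ 3 := by
    have h1 : (minpoly ℚ β).degree ≤ P.degree := by
      refine minpoly.min ℚ β hmon ?_
      rw [hP]
      simp only [map_sub, map_pow, map_mul, Polynomial.aeval_X, Polynomial.aeval_C, eq_ratCast]
      linear_combination hβ3
    have h2 := Polynomial.natDegree_le_natDegree h1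
    have h3 : P.natDegree = 3 := by
      rw [hP]
      compute_degree!
    omega
  have hfin : Module.finrank ℚ (IntermediateField.adjoin ℚ {β}) ≤ 3 := by
    rw [IntermediateField.adjoin.finrank hint]; exact hdeg
  have : FiniteDimensional ℚ (IntermediateField.adjoin ℚ {β}) :=
    IntermediateField.adjoin.finiteDimensional hint
  set v : Fin 4 → IntermediateField.adjoin ℚ {β} :=
    ![1, ⟨κ, hκ⟩, ⟨β, hβ⟩, ⟨β * κ, mul_mem hβ hκ⟩] with hv
  have hnot : ¬ LinearIndependent ℚ v := by
    intro h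
    have := h.fintype_card_le_finrank
    rw [Fintype.card_fin] at this
    omega
  have hnotZ : ¬ LinearIndependent ℤ v := by
    intro h
    exact hnot ((LinearIndependent.iff_fractionRing ℤ ℚ).1 h)
  obtain ⟨g, hg, i, hi⟩ := Fintype.not_linearIndependent_iff.1 hnotZ
  refine ⟨g, ⟨i, hi⟩, ?_⟩
  have h1 := congrArg (fun y : IntermediateField.adjoin ℚ {β} => (y : ℂ)) hg
  simp only [hv, Fin.sum_univ_four] at h1
  simpa using h1

/-- Module JJ. -/
theorem m_JJ : StJJ := by
  intro β hβim hcub hnr A htr hdet hex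
  obtain ⟨a, b, c, hβ3⟩ := hcub
  have hβ0 : β ≠ 0 := by
    rintro rfl
    exact hβim (by simp)
  have hchar : β * β = ((A 0 0 + A 1 1 : ℝ) : ℂ) * β - ((A 0 0 * A 1 1 - A 0 1 * A 1 0 : ℝ) : ℂ) := by
    rw [← Matrix.det_fin_two, hdet, ← Matrix.trace_fin_two, htr]
    apply Complex.ext
    · simp [Complex.normSq_apply]
      ring
    · simp [Complex.normSq_apply]
      ring
  have ha : A 0 1 ≠ 0 := by
    intro ha
    have h7 : (β - (A 0 0 : ℂ)) * (β - (A 1 1 : ℂ)) = 0 := by
      rw [ha] at hchar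
      push_cast at hchar
      linear_combination hchar
    rcases mul_eq_zero.1 h7 with h8 | h8
    · apply hβim
      have := congrArg Complex.im h8
      simpa using this
    · apply hβim
      have := congrArg Complex.im h8
      simpa using this
  -- the map `φ`
  set z0 : ℂ := (A 0 1 : ℂ) with hz0
  set z1 : ℂ := β - (A 0 0 : ℂ) with hz1
  have hz0' : z0 ≠ 0 := by rw [hz0]; exact_mod_cast ha
  let φ : (Fin 2 → ℝ) → ℂ := fun x => z0 * (x 0 : ℂ) + z1 * (x 1 : ℂ)
  have hφ : ∀ x, φ x = z0 * (x 0 : ℂ) + z1 * (x 1 : ℂ) := fun _ => rfl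
  have hφB : ∀ x, φ (Aᵀ *ᵥ x) = β * φ x := by
    intro x
    rw [hφ, hφ]
    have e0 : (Aᵀ *ᵥ x) 0 = A 0 0 * x 0 + A 1 0 * x 1 := by
      simp [Matrix.mulVec, dotProduct, Fin.sum_univ_two]
    have e1 : (Aᵀ *ᵥ x) 1 = A 0 1 * x 0 + A 1 1 * x 1 := by
      simp [Matrix.mulVec, dotProduct, Fin.sum_univ_two]
    rw [e0, e1, hz0, hz1]
    push_cast at hchar ⊢
    linear_combination (-(x 1 : ℂ)) * hchar
  have hφn : ∀ (n : ℕ) (x), φ ((Aᵀ) ^ n *ᵥ x) = β ^ n * φ x := by
    intro n
    induction n with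
    | zero => intro x; simp
    | succ n ih =>
      intro x
      rw [pow_succ', ← Matrix.mulVec_mulVec, hφB, ih, pow_succ']
      ring
  have hφinj : ∀ x y, φ x = φ y → x = y := by
    intro x y h
    rw [hφ, hφ] at h
    have him := congrArg Complex.im h
    have hre := congrArg Complex.re h
    rw [hz0, hz1] at him hre
    simp only [Complex.add_im, Complex.mul_im, Complex.ofReal_re, Complex.ofReal_im, mul_zero, zero_mul,
      add_zero, zero_add, Complex.sub_im, sub_zero] at him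
    simp only [Complex.add_re, Complex.mul_re, Complex.ofReal_re, Complex.ofReal_im, mul_zero,
      sub_zero, Complex.sub_re, Complex.sub_im] at hre
    have e1 : x 1 = y 1 := mul_left_cancel₀ hβim him
    have e0 : x 0 = y 0 := by
      rw [e1] at hre
      have : A 0 1 * x 0 = A 0 1 * y 0 := by linarith
      exact mul_left_cancel₀ ha this
    funext i
    fin_cases i
    · exact e0
    · exact e1
  have hdetT : IsUnit (Aᵀ).det := by
    rw [Matrix.det_transpose, hdet, isUnit_iff_ne_zero]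
    rwa [Ne, Complex.normSq_eq_zero]
  -- a positive exponent
  obtain ⟨n, hn, p, q, hq, hpq⟩ : ∃ n : ℕ, n ≠ 0 ∧ ∃ p q : Fin 2 → ℤ, q ≠ 0 ∧ zv p = Aᵀ ^ n *ᵥ zv q := by
    obtain ⟨j, hj, x, hx, ⟨p, hp⟩, ⟨q, hq⟩⟩ := hex
    have hp' : zv p = x.ofLp := by
      have h : (Aᵀ ^ (0 : ℤ)) *ᵥ zv p = x.ofLp := congrArg (fun y : Wav.E 2 => y.ofLp) hp
      rwa [zpow_zero, Matrix.one_mulVec] at h
    have hq' : Aᵀ ^ j *ᵥ zv q = x.ofLp := congrArg (fun y : Wav.E 2 => y.ofLp) hq
    have hx' : x.ofLp ≠ 0 := fun h => hx (by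
      have : x = WithLp.toLp 2 x.ofLp := rfl
      rw [this, h]; rfl)
    have hp0 : p ≠ 0 := by
      rintro rfl
      apply hx'
      rw [← hp']
      funext i
      simp [zv]
    have hq0 : q ≠ 0 := by
      rintro rfl
      apply hx'
      rw [← hq']
      have : (zv (0 : Fin 2 → ℤ) : Fin 2 → ℝ) = 0 := by funext i; simp [zv]
      rw [this, Matrix.mulVec_zero]
    cases j with
    | ofNat n =>
      refine ⟨n, ?_, p, q, hq0, ?_⟩
      · rintro rfl; exact hj rfl
      · rw [hp', ← hq']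
        simp
    | negSucc n =>
      refine ⟨n + 1, by omega, q, p, hp0, ?_⟩
      rw [hp', ← hq', zpow_negSucc, Matrix.mulVec_mulVec, Matrix.mul_nonsing_inv,
        Matrix.one_mulVec]
      rw [Matrix.det_pow]
      exact hdetT.pow _
  have hrel : φ (zv p) = β ^ n * φ (zv q) := by
    rw [hpq, hφn]
  set u : ℂ := β ^ n * (q 0 : ℂ) - (p 0 : ℂ) with hu
  set w : ℂ := β ^ n * (q 1 : ℂ) - (p 1 : ℂ) with hw
  have huw : z0 * u + z1 * w = 0 := by
    rw [hφ, hφ] at hrel
    simp only [zv] at hrel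
    push_cast at hrel
    rw [hu, hw]
    linear_combination -hrel
  have hw0 : w ≠ 0 := by
    intro hw0
    rw [hw0, mul_zero, add_zero] at huw
    have hu0 : u = 0 := (mul_eq_zero.1 huw).resolve_left hz0'
    apply hq
    have key : ∀ i, β ^ n * (q i : ℂ) - (p i : ℂ) = 0 → q i = 0 := by
      intro i hi
      by_contra hqi
      have hqi' : (q i : ℂ) ≠ 0 := by exact_mod_cast hqi
      apply hnr n hn ((p i : ℚ) / (q i : ℚ))
      push_cast
      rw [eq_div_iff hqi']
      linear_combination hi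
    funext i
    fin_cases i
    · exact key 0 hu0
    · exact key 1 hw0
  have hκ : z1 / z0 = - u / w := by
    rw [div_eq_div_iff hz0' hw0]
    linear_combination huw
  have hβK : β ∈ IntermediateField.adjoin ℚ {β} := IntermediateField.mem_adjoin_simple_self ℚ β
  have hκK : z1 / z0 ∈ IntermediateField.adjoin ℚ {β} := by
    rw [hκ]
    refine div_mem (neg_mem ?_) ?_
    · exact sub_mem (mul_mem (pow_mem hβK n) (intCast_mem _ _)) (intCast_mem _ _)
    · exact sub_mem (mul_mem (pow_mem hβK n) (intCast_mem _ _)) (intCast_mem _ _)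
  obtain ⟨g, ⟨i, hi⟩, hg⟩ := dep_JJ hβ3 (z1 / z0) hκK
  have hg' : (g 0 : ℂ) * z0 + g 1 * z1 + β * (g 2 * z0 + g 3 * z1) = 0 := by
    have e : z1 = z1 / z0 * z0 := by field_simp
    calc (g 0 : ℂ) * z0 + g 1 * z1 + β * (g 2 * z0 + g 3 * z1) =
        (g 0 : ℂ) * z0 + g 1 * (z1 / z0 * z0) + β * (g 2 * z0 + g 3 * (z1 / z0 * z0)) := by rw [← e]
      _ = ((g 0 : ℂ) + g 1 * (z1 / z0) + g 2 * β + g 3 * (β * (z1 / z0))) * z0 := by ring
      _ = 0 := by rw [hg, zero_mul]
  have hzv0 : ∀ a b : ℤ, φ (zv ![a, b]) = z0 * (a : ℂ) + z1 * (b : ℂ) := by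
    intro a b
    rw [hφ]
    simp [zv]
  have hfin : φ (zv ![g 0, g 1]) = φ (Aᵀ *ᵥ zv ![- g 2, - g 3]) := by
    rw [hφB, hzv0, hzv0]
    push_cast
    linear_combination hg'
  refine ⟨![g 0, g 1], ![- g 2, - g 3], ?_, hφinj _ _ hfin⟩
  intro h0
  have g2 : g 2 = 0 := by
    have := congrFun h0 0
    simpa using this
  have g3 : g 3 = 0 := by
    have := congrFun h0 1
    simpa using this
  have hz : φ (zv ![g 0, g 1]) = φ (zv ![0, 0]) := by
    rw [hzv0, hzv0]
    rw [g2, g3] at hg'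
    push_cast at hg' ⊢
    linear_combination hg'
  have hz' := hφinj _ _ hz
  have g0 : g 0 = 0 := by
    have := congrFun hz' 0
    simpa [zv] using this
  have g1 : g 1 = 0 := by
    have := congrFun hz' 1
    simpa [zv] using this
  apply hi
  fin_cases i
  · exact g0
  · exact g1
  · exact g2
  · exact g3

end Pool.Agent.Helper56.FM
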