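import Pool.Agent.Helper56.FM.Fam

/-!
# Project FM, module LQ: rational lattices, common denominator (helper75)
-/

set_option autoImplicit false

open Set Filter Topology Matrix
open Pool.Agent.Helper54.Wav

noncomputable section

namespace Pool.Agent.Helper56.FM

open Pool.Agent.Helper54.TRI

theorem lq_den (β : ℂ) (Λ : Finset ℂ) : (∀ u ∈ Λ, Gq β 0 u) →
    ∃ N : ℕ, 0 < N ∧ ∀ u ∈ Λ, ∃ m n : ℤ, (N : ℂ) * u = (m : ℂ) + (n : ℂ) * β⁻¹ := by
  classical
  induction Λ using Finset.induction_on with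
  | empty =>
    intro _
    exact ⟨1, one_pos, fun u hu => absurd hu (Finset.notMem_empty u)⟩
  | insert a s ha ih =>
    intro h
    obtain ⟨N, hN, hs⟩ := ih fun u hu => h u (Finset.mem_insert_of_mem hu)
    obtain ⟨x, y, hxy⟩ := h a (Finset.mem_insert_self a s)
    rw [zpow_zero, one_mul] at hxy
    refine ⟨N * (x.den * y.den), Nat.mul_pos hN (Nat.mul_pos x.pos y.pos), fun u hu => ?_⟩
    rcases Finset.mem_insert.1 hu with rfl | hu
    · refine ⟨(N : ℤ) * y.den * x.num, (N : ℤ) * x.den * y.num, ?_⟩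
      have hx : (x : ℂ) * (x.den : ℂ) = (x.num : ℂ) := by exact_mod_cast Rat.mul_den_eq_num x
      have hy : (y : ℂ) * (y.den : ℂ) = (y.num : ℂ) := by exact_mod_cast Rat.mul_den_eq_num y
      rw [hxy]
      push_cast
      rw [← hx, ← hy]
      ring
    · obtain ⟨m, n, hmn⟩ := hs u hu
      refine ⟨(x.den : ℤ) * y.den * m, (x.den : ℤ) * y.den * n, ?_⟩
      have e : ((N * (x.den * y.den) : ℕ) : ℂ) * u = (x.den : ℂ) * y.den * ((N : ℂ) * u) := by
        push_cast
        ring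
      rw [e, hmn]
      push_cast
      ring

theorem m_LQ (hl : StLAT) : StLQ := by
  intro β B p q hβ htr hdet hq hpq Λ hΛ
  obtain ⟨N, hN, hs⟩ := lq_den β Λ hΛ
  have hβ0 : β ≠ 0 := by
    rintro rfl
    exact hβ Complex.zero_im
  have hα : (β⁻¹).im ≠ 0 := by
    rw [Complex.inv_im]
    exact div_ne_zero (neg_ne_zero.2 hβ) (fun h => hβ0 (Complex.normSq_eq_zero.1 h))
  obtain ⟨φ, hinj, hφ, hlat⟩ := hl β⁻¹ 1 B p q hα one_ne_zero (by rw [inv_inv]; exact htr)
    (by rw [inv_inv]; exact hdet) hq hpq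
  rw [inv_inv] at hφ
  have hN0 : (N : ℝ) ≠ 0 := by
    have : (0 : ℝ) < N := by exact_mod_cast hN
    exact this.ne'
  have hc : (N : ℝ)⁻¹ ≠ 0 := inv_ne_zero hN0
  refine ⟨(N : ℝ)⁻¹ • φ, ?_, ?_, ?_⟩
  · intro x y h
    rw [LinearMap.smul_apply, LinearMap.smul_apply] at h
    exact hinj (smul_right_injective ℂ hc h)
  · intro x
    rw [LinearMap.smul_apply, LinearMap.smul_apply, hφ x, mul_smul_comm]
  · intro u hu
    obtain ⟨m, n, hmn⟩ := hs u hu
    obtain ⟨k, hk⟩ := hlat ((N : ℂ) * u) ⟨m, n, by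
      rw [hmn, zpow_zero, one_mul, Int.cast_one, one_mul]⟩
    refine ⟨k, ?_⟩
    rw [LinearMap.smul_apply, ← hk, Complex.real_smul]
    push_cast
    rw [← mul_assoc, inv_mul_cancel₀ (by exact_mod_cast hN.ne'), one_mul]

end Pool.Agent.Helper56.FM
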