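import Pool.Agent.Helper56.FM.St

/-! Project FM, module NB: neighbours of a checked certificate. -/

set_option autoImplicit false

open Set Filter Topology

noncomputable section

namespace Pool.Agent.Helper56.FM

open Pool.Agent.Helper54.TRI

variable {Q : Type} {M : Ops Q} {β : ℂ} {e : Q → ℂ} {Γ : ℤ → ℂ → Prop}

private theorem ne_zero_NB (hM : Sound M β e Γ) : β ≠ 0 := by
  intro h0
  have := hM.one_lt
  rw [h0, norm_zero] at this
  linarith

private theorem eqr_NB (hM : Sound M β e Γ) (X : Cert Q) (m : ℤ) (r r' : Rf)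
    (h : eqr m r r' = true) : X.pt M e r = β ^ m * X.pt M e r' ∧ X.lz M r = X.lz M r' + m := by
  unfold eqr at h
  simp only [Bool.and_eq_true, decide_eq_true_eq] at h
  obtain ⟨h1, h2⟩ := h
  constructor
  · unfold Cert.pt Cert.vz
    rw [hM.mul, hM.mul, h1, ← mul_assoc, ← zpow_natCast, ← zpow_natCast,
      ← zpow_add₀ (ne_zero_NB hM), h2, add_comm]
  · unfold Cert.lz
    rw [h1, h2]
    ring

private theorem eqf_NB (hM : Sound M β e Γ) (m : ℤ) (f g : ZF Q) (h : eqf M m f g = true) :
    f.toEF e = ((g.toEF e).rev).act β m := by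
  have hβ := ne_zero_NB hM
  cases f with
  | pure l =>
    cases g with
    | pure l' =>
      simp only [eqf, decide_eq_true_eq] at h
      simp only [ZF.toEF, EF.rev, EF.act, h]
    | wall i' j' v' e' => simp [eqf] at h
  | wall i j v s =>
    cases g with
    | pure l' => simp [eqf] at h
    | wall i' j' v' s' =>
      simp only [eqf, Bool.and_eq_true, decide_eq_true_eq] at h
      obtain ⟨h1, h2, h3, h4⟩ := h
      have hv : e v = β ^ m * e v' := by
        by_cases hm : 0 ≤ m
        · rw [if_pos hm] at h4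
          have h5 := hM.isz _ h4
          rw [hM.sub, hM.mul, sub_eq_zero] at h5
          rw [h5]
          congr 1
          rw [← zpow_natCast, Int.toNat_of_nonneg hm]
        · rw [if_neg hm] at h4
          have h5 := hM.isz _ h4
          rw [hM.sub, hM.mul, sub_eq_zero] at h5
          rw [← h5, ← mul_assoc, ← zpow_natCast, Int.toNat_of_nonneg (by omega), ← zpow_add₀ hβ]
          simp
      simp only [ZF.toEF, EF.rev, EF.act, h1, h2, h3, hv]
      push_cast
      rfl

theorem m_NB : StNB := by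
  intro Q M β e Γ hM X hN hG i s
  obtain ⟨c, a⟩ := i
  have hn : (X.C M e c).n = (X.cl c.val).n := (hG c).1
  have ha : a.val < (X.cl c.val).n := by
    rw [← hn]; exact a.isLt
  -- the check
  have hok : X.okN M c.val a.val s = true := by
    have h1 := List.all_eq_true.mp hN c.val (List.mem_range.mpr c.isLt)
    have h2 := List.all_eq_true.mp h1 a.val (List.mem_range.mpr ha)
    simp only [Bool.and_eq_true] at h2
    fin_cases s
    · exact h2.1
    · exact h2.2.1
    · exact h2.2.2
  unfold Cert.okN at hok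
  simp only [Bool.and_eq_true, decide_eq_true_eq] at hok
  obtain ⟨hc', ha', e1, e2, e3⟩ := hok
  generalize X.nb c.val a.val s.val = r at hc' ha' e1 e2 e3
  obtain ⟨c1, a1, s1, m⟩ := r
  dsimp only at hc' ha' e1 e2 e3
  have hn' : (X.C M e ⟨c1, hc'⟩).n = (X.cl c1).n := (hG ⟨c1, hc'⟩).1
  have hT : ∀ (c : Fin X.CS.length) (a : Fin (X.C M e c).n) (s : Fin 3),
      TT (X.C M e) ⟨c, a⟩ s = X.pt M e (trv ((X.cl c.val).tr a.val) s) := by
    intro c a s
    exact (hG c).2.2.1 a s
  refine ⟨⟨⟨c1, hc'⟩, ⟨a1, by rw [hn']; exact ha'⟩⟩, Fin.ofNat 3 s1, m, ?_, ?_, ?_, ?_, ?_⟩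
  · rw [hT, hT]
    exact (eqr_NB hM X m _ _ e1).1
  · rw [hT, hT]
    exact (eqr_NB hM X m _ _ e2).1
  · exact eqf_NB hM m _ _ e3
  · exact (eqr_NB hM X m _ _ e1).2
  · exact (eqr_NB hM X m _ _ e2).2

end Pool.Agent.Helper56.FM
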