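import Pool.Agent.Helper56.FM.Fam

/-! Project FM, module NP: no rational power of the matrix. -/

set_option autoImplicit false

open Set Filter Topology Matrix
open Pool.Agent.Helper54.Wav

noncomputable section

namespace Pool.Agent.Helper56.FM

open Pool.Agent.Helper54.TRI

theorem m_NP (hr : StRF) (hn : StNR) : StNP := by
  intro s r β hF hs A hdet hpow
  obtain ⟨p, M, hp, hM⟩ := hpow
  obtain ⟨-, hnorm, -, -⟩ := hr.1 s r β hF
  have hpos : 0 < r ^ 2 + r + 1 := by
    have := hF.pos
    positivity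
  have hdetM : ((M.det : ℚ) : ℝ) = (r ^ 2 + r + 1) ^ p := by
    have h7 := congrArg Matrix.det hM
    rw [Matrix.det_pow, hdet, hnorm] at h7
    rw [h7]
    have h8 := RingHom.map_det (algebraMap ℚ ℝ) M
    rw [RingHom.mapMatrix_apply] at h8
    rw [← h8]
    rfl
  have hne : ((M.det : ℚ) : ℝ) ≠ 0 := by
    rw [hdetM]
    exact pow_ne_zero _ hpos.ne'
  have hrs : r * (r ^ 2 + r + 1) = (s : ℝ) := by
    rw [← hF.real]; ring
  refine (hn s r β hF hs p hp.ne' (s ^ p / M.det)).2 ?_
  rw [Rat.cast_div, Rat.cast_pow, eq_div_iff hne, hdetM, ← mul_pow, hrs]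

end Pool.Agent.Helper56.FM
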