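import Pool.Agent.Helper56.FM.Fam

/-!
Project FM (MP_d629b1_an, helper56), module NR: powers of the roots are not rational.
-/

set_option autoImplicit false

open Set Filter Topology Matrix
open Pool.Agent.Helper54.Wav

noncomputable section

namespace Pool.Agent.Helper56.FM

open Pool.Agent.Helper54.TRI

/-- the cubic polynomial -/
private def fNR (s : ℚ) : Polynomial ℚ :=
  Polynomial.X ^ 3 + Polynomial.X ^ 2 + Polynomial.X - Polynomial.C s

private theorem fNR_natDegree (s : ℚ) : (fNR s).natDegree = 3 := by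
  unfold fNR
  compute_degree!

private theorem fNR_monic (s : ℚ) : (fNR s).Monic := by
  unfold fNR
  monicity!

private theorem fNR_aeval (s : ℚ) (z : ℂ) :
    Polynomial.aeval z (fNR s) = z ^ 3 + z ^ 2 + z - (s : ℂ) := by
  simp [fNR]

private theorem fNR_irr (s : ℚ) (hx : ∀ x : ℚ, x ^ 3 + x ^ 2 + x ≠ s) : Irreducible (fNR s) := by
  rw [Polynomial.irreducible_iff_roots_eq_zero_of_degree_le_three
    (by rw [fNR_natDegree]; norm_num) (by rw [fNR_natDegree])]
  rw [Multiset.eq_zero_iff_forall_notMem]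
  intro x hmem
  have h1 := (Polynomial.mem_roots'.1 hmem).2
  have h2 : x ^ 3 + x ^ 2 + x - s = 0 := by
    simpa [fNR, Polynomial.IsRoot] using h1
  exact hx x (sub_eq_zero.1 h2)

/-- a rational power of one root is a rational power of the other one -/
private theorem fNR_transfer (s : ℚ) (hx : ∀ x : ℚ, x ^ 3 + x ^ 2 + x ≠ s) (a b : ℂ)
    (ha : a ^ 3 + a ^ 2 + a = (s : ℂ)) (hb : b ^ 3 + b ^ 2 + b = (s : ℂ)) (n : ℕ) (u : ℚ)
    (h : a ^ n = (u : ℂ)) : b ^ n = (u : ℂ) := by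
  have ha0 : Polynomial.aeval a (fNR s) = 0 := by rw [fNR_aeval, ha, sub_self]
  have hb0 : Polynomial.aeval b (fNR s) = 0 := by rw [fNR_aeval, hb, sub_self]
  have hm : fNR s = minpoly ℚ a :=
    minpoly.eq_of_irreducible_of_monic (fNR_irr s hx) ha0 (fNR_monic s)
  have hd : fNR s ∣ Polynomial.X ^ n - Polynomial.C u := by
    rw [hm]
    apply minpoly.dvd
    simp [h]
  obtain ⟨q, hq⟩ := hd
  have h3 : Polynomial.aeval b (Polynomial.X ^ n - Polynomial.C u : Polynomial ℚ) = 0 := by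
    rw [hq, map_mul, hb0, zero_mul]
  have h4 : b ^ n - (u : ℂ) = 0 := by simpa using h3
  exact sub_eq_zero.1 h4

theorem m_NR (hr : StRF) : StNR := by
  intro s r β hF hx n hn u
  have hrc : (r : ℂ) ^ 3 + (r : ℂ) ^ 2 + (r : ℂ) = (s : ℂ) := by
    have h1 := hF.real
    have h2 : ((r ^ 3 + r ^ 2 + r : ℝ) : ℂ) = ((s : ℝ) : ℂ) := by rw [h1]
    push_cast at h2
    exact h2
  have hns : Complex.normSq β = r ^ 2 + r + 1 := (hr.1 s r β hF).2.1
  have hrpos := hF.pos
  have hboth : ¬ (β ^ n = (u : ℂ) ∧ (r : ℂ) ^ n = (u : ℂ)) := by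
    rintro ⟨h1, h2⟩
    have h3 : ‖β‖ ^ n = r ^ n := by
      have h4 : ‖β ^ n‖ = ‖(r : ℂ) ^ n‖ := by rw [h1, h2]
      rwa [norm_pow, norm_pow, Complex.norm_real, Real.norm_of_nonneg hrpos.le] at h4
    have h5 : ‖β‖ = r := (pow_left_inj₀ (norm_nonneg β) hrpos.le hn).1 h3
    have h6 : Complex.normSq β = ‖β‖ ^ 2 := Complex.normSq_eq_norm_sq β
    rw [h5] at h6
    rw [h6] at hns
    linarith
  constructor
  · intro h1
    exact hboth ⟨h1, fNR_transfer s hx β r hF.cub hrc n u h1⟩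
  · intro h1
    have h2 : (r : ℂ) ^ n = (u : ℂ) := by
      have h3 : ((r ^ n : ℝ) : ℂ) = ((u : ℝ) : ℂ) := by rw [h1]
      push_cast at h3
      exact h3
    exact hboth ⟨fNR_transfer s hx r β hrc hF.cub n u h2, h2⟩

end Pool.Agent.Helper56.FM
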