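import Pool.Agent.Helper56.FM.Fam

set_option autoImplicit false

open Set Filter Topology Matrix
open Pool.Agent.Helper54.Wav

noncomputable section

namespace Pool.Agent.Helper56.FM

open Pool.Agent.Helper54.TRI

private lemma rf_quad {s : ℚ} {r : ℝ} {β : ℂ} (h : Fam s r β) :
    β ^ 2 = -(1 + (r : ℂ)) * β - ((r : ℂ) ^ 2 + r + 1) := by
  have hne : β - (r : ℂ) ≠ 0 := by
    intro h0
    have h1 : β = (r : ℂ) := sub_eq_zero.1 h0
    have h2 := h.im
    rw [h1] at h2
    simp at h2
  have hr : (r : ℂ) ^ 3 + (r : ℂ) ^ 2 + (r : ℂ) = (s : ℂ) := by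
    have := congrArg (fun t : ℝ => (t : ℂ)) h.real
    push_cast at this
    exact this
  have hprod : (β - (r : ℂ)) * (β ^ 2 + (1 + (r : ℂ)) * β + ((r : ℂ) ^ 2 + r + 1)) = 0 := by
    have h1 := h.cub
    linear_combination h1 - hr
  rcases mul_eq_zero.1 hprod with h1 | h1
  · exact absurd h1 hne
  · linear_combination h1

theorem m_RF : StRF := by
  refine ⟨?_, ?_, ?_⟩
  · intro s r β h
    have hq := rf_quad h
    have him := h.im
    have h1 := congrArg Complex.re hq
    have h2 := congrArg Complex.im hq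
    simp only [pow_two, Complex.mul_re, Complex.mul_im, Complex.sub_re, Complex.sub_im, Complex.add_re,
      Complex.add_im, Complex.neg_re, Complex.neg_im, Complex.one_re, Complex.one_im, Complex.ofReal_re,
      Complex.ofReal_im] at h1 h2
    have hre : 2 * β.re = -(1 + r) := by
      have h3 : β.im * (2 * β.re + (1 + r)) = 0 := by linarith
      rcases mul_eq_zero.1 h3 with h4 | h4
      · exact absurd h4 him.ne'
      · linarith
    have hns : Complex.normSq β = r ^ 2 + r + 1 := by
      rw [Complex.normSq_apply]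
      have h5 : 1 + r = -(2 * β.re) := by linarith
      nlinarith [h1, h5]
    refine ⟨hre, hns, ?_, hq⟩
    have hr := h.pos
    have h6 : ‖β‖ ^ 2 = r ^ 2 + r + 1 := by rw [← Complex.normSq_eq_norm_sq, hns]
    have h7 : 0 ≤ ‖β‖ := norm_nonneg β
    by_contra hcon
    push Not at hcon
    nlinarith
  · intro s hs
    have hsR : (0 : ℝ) < (s : ℝ) := by exact_mod_cast hs
    have hcont : ContinuousOn (fun x : ℝ => x ^ 3 + x ^ 2 + x) (Icc 0 (s : ℝ)) := by fun_prop
    have hivt := intermediate_value_Icc hsR.le hcont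
    have hmem : (s : ℝ) ∈ Icc ((fun x : ℝ => x ^ 3 + x ^ 2 + x) 0) ((fun x : ℝ => x ^ 3 + x ^ 2 + x) (s : ℝ)) := by
      constructor
      · simpa using hsR.le
      · simp only
        have : 0 ≤ (s : ℝ) ^ 3 + (s : ℝ) ^ 2 := by positivity
        linarith
    obtain ⟨r, hr, hrs⟩ := hivt hmem
    simp only at hrs
    have hr0 : 0 < r := by
      rcases hr.1.lt_or_eq with h | h
      · exact h
      · rw [← h] at hrs
        norm_num at hrs
        linarith
    set q : ℝ := r ^ 2 + r + 1 - (1 + r) ^ 2 / 4 with hq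
    have hqp : 0 < q := by rw [hq]; nlinarith
    set w : ℝ := Real.sqrt q with hw
    have hw2 : w ^ 2 = q := Real.sq_sqrt hqp.le
    have hwp : 0 < w := Real.sqrt_pos.2 hqp
    refine ⟨r, (((-(1 + r) / 2 : ℝ) : ℂ) + (w : ℂ) * Complex.I), hr0, hrs, ?_, ?_⟩
    · set β : ℂ := (((-(1 + r) / 2 : ℝ) : ℂ) + (w : ℂ) * Complex.I) with hβ
      have hw2c : (w : ℂ) ^ 2 = (r : ℂ) ^ 2 + r + 1 - (1 + (r : ℂ)) ^ 2 / 4 := by
        have := congrArg (fun t : ℝ => (t : ℂ)) hw2
        rw [hq] at this
        push_cast at this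
        exact this
      have hb2 : β ^ 2 = -(1 + (r : ℂ)) * β - ((r : ℂ) ^ 2 + r + 1) := by
        rw [hβ]
        push_cast
        linear_combination (w : ℂ) ^ 2 * Complex.I_sq - hw2c
      have hrc : (r : ℂ) ^ 3 + (r : ℂ) ^ 2 + (r : ℂ) = (s : ℂ) := by
        have := congrArg (fun t : ℝ => (t : ℂ)) hrs
        push_cast at this
        exact this
      linear_combination (β - (r : ℂ)) * hb2 + hrc
    · simp only [Complex.add_im, Complex.ofReal_im, Complex.mul_im, Complex.ofReal_re, Complex.I_im,
        Complex.I_re]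
      linarith
  · intro s r β h h1 h2
    have hr := h.pos
    have hs := h.real
    have h1' : (7 / 8 : ℝ) ≤ (s : ℝ) := by
      have := (Rat.cast_le (K := ℝ)).2 h1
      push_cast at this
      exact this
    have h2' : (s : ℝ) ≤ 3 / 2 := by
      have := (Rat.cast_le (K := ℝ)).2 h2
      push_cast at this
      exact this
    constructor
    · by_contra hcon
      push Not at hcon
      have h3 : r ^ 2 < 1 / 4 := by nlinarith
      have h4 : r ^ 3 < 1 / 8 := by nlinarith
      linarith
    · by_contra hcon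
      push Not at hcon
      have h3 : 49 / 100 < r ^ 2 := by nlinarith
      have h4 : 343 / 1000 < r ^ 3 := by nlinarith
      linarith

end Pool.Agent.Helper56.FM
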