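import Pool.Agent.Helper56.FM.St

/-! Project FM, module TL: the tiling from the degree argument. -/

set_option autoImplicit false

open Set Filter Topology

noncomputable section

namespace Pool.Agent.Helper56.FM

open Pool.Agent.Helper54.TRI

theorem m_TL (hT : StTG) (hG : StGEN) (hD : StDEG) : StTL := by
  intro ι _ T β nb c hβ hPos h0 hn1 hn2 hchain hslit hne harg
  have hβ0 : β ≠ 0 := by
    intro h
    rw [h, norm_zero] at hβ
    linarith
  have hdist : ∀ i s, T i s ≠ T i (s + 1) := by
    intro i s h
    have h1 := (hT (T i) (hPos i)).2.1 h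
    revert h1
    fin_cases s <;> simp
  refine ⟨hβ, hPos, h0, ?_, hn1, hn2⟩
  refine (hG ι T β c hβ0 hdist hne).mono ?_
  rintro x ⟨hx0, hx1, hx2⟩
  exact hD ι T β c hβ hPos hchain hslit harg x hx0 hx1 hx2

end Pool.Agent.Helper56.FM
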