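import Pool.Agent.Helper56.FM.St

/-!
# Project FM, module VL: labels of vertices of any tiling (connectedness of a small circle)
-/

set_option autoImplicit false

open Set Filter Topology

noncomputable section

namespace Pool.Agent.Helper56.FM

open Pool.Agent.Helper54.TRI

private lemma vl_cases : ∀ t u : Fin 3, u = t ∨ u = t + 1 ∨ u = t + 2 := by decide

private lemma vl_two : ∀ t : Fin 3, t + 1 + 1 = t + 2 := by decide

private lemma vl_ht_cont (p q b : ℂ) : Continuous (fun y : ℂ => ht p q (b * y)) := by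
  unfold ht
  fun_prop

/-- a point of the triangle `β^m T j` on a small circle around its vertex -/
private lemma vl_pt {P : Fin 3 → ℂ} (hseg : ∀ s, segment ℝ (P s) (P (s + 1)) ⊆ Cls P)
    (hinj : Function.Injective P) {β : ℂ} (hβ : β ≠ 0) (m : ℤ) (x₀ : ℂ) (t : Fin 3)
    (hv : β ^ (-m) * x₀ = P t) :
    0 < ‖β ^ m * P (t + 1) - x₀‖ ∧
    ∀ r : ℝ, 0 < r → r ≤ ‖β ^ m * P (t + 1) - x₀‖ →
      ∃ y, y ∈ Metric.sphere x₀ r ∧ β ^ (-m) * y ∈ Cls P := by
  have hbm : β ^ (-m) * β ^ m = 1 := by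
    rw [zpow_neg]
    exact inv_mul_cancel₀ (zpow_ne_zero _ hβ)
  have hne : β ^ m * P (t + 1) - x₀ ≠ 0 := by
    intro h0
    have h1 : x₀ = β ^ m * P (t + 1) := (sub_eq_zero.1 h0).symm
    have h2 : P (t + 1) = P t := by
      rw [← hv, h1, ← mul_assoc, hbm, one_mul]
    have h3 := hinj h2
    have h4 : ∀ t : Fin 3, t + 1 ≠ t := by decide
    exact h4 t h3
  have hpos : 0 < ‖β ^ m * P (t + 1) - x₀‖ := norm_pos_iff.2 hne
  refine ⟨hpos, fun r hr hr' => ?_⟩
  refine ⟨x₀ + ((r / ‖β ^ m * P (t + 1) - x₀‖ : ℝ) : ℂ) * (β ^ m * P (t + 1) - x₀), ?_, ?_⟩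
  · rw [mem_sphere_iff_norm, add_sub_cancel_left, norm_mul, Complex.norm_real, Real.norm_eq_abs,
      abs_of_pos (div_pos hr hpos)]
    field_simp
  · apply hseg t
    rw [segment_eq_image]
    refine ⟨r / ‖β ^ m * P (t + 1) - x₀‖, ⟨by positivity, (div_le_one hpos).2 hr'⟩, ?_⟩
    simp only [Complex.real_smul]
    have h5 : β ^ (-m) * (β ^ m * P (t + 1)) = P (t + 1) := by
      rw [← mul_assoc, hbm, one_mul]
    rw [← hv]
    rw [mul_add]
    have h6 : β ^ (-m) * (((r / ‖β ^ m * P (t + 1) - x₀‖ : ℝ) : ℂ) * (β ^ m * P (t + 1) - x₀))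
        = ((r / ‖β ^ m * P (t + 1) - x₀‖ : ℝ) : ℂ) * (P (t + 1) - β ^ (-m) * x₀) := by
      rw [mul_left_comm, mul_sub, h5]
    rw [h6]
    push_cast
    ring

theorem m_VL (hT : StTG) (h1 : StCF1) (h2 : StCF2) (h3 : StCF3) : StVL := by
  intro ι _ T β nb hτ lab l1 l2 i s i' s' k hx
  have hβ : β ≠ 0 := by
    intro h0
    have := hτ.one_lt
    rw [h0, norm_zero] at this
    linarith
  obtain ⟨c1, c2, c3⟩ := h1 ι T β nb hτ
  obtain ⟨d1, d2⟩ := h2 ι T β nb hτ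
  have hTG := fun j => hT (T j) (hτ.pos j)
  have hinj : ∀ j, Function.Injective (T j) := fun j => (hTG j).2.1
  set x₀ : ℂ := T i s with hx₀
  have hx0 : x₀ ≠ 0 := by
    intro h0
    have h4 := (hTG i).2.2.2.2.2.2.1 s
    apply hτ.zero i
    rw [← h0]
    exact h4
  have hfin := h3 ι T β nb hτ x₀ hx0
  set A : Set (ι × ℤ) := {a : ι × ℤ | β ^ (-a.2) * x₀ ∈ Cls (T a.1)} with hA
  have hvert : ∀ a ∈ A, ∃ t, β ^ (-a.2) * x₀ = T a.1 t := by
    intro a ha
    exact d2 x₀ i s 0 (by simp [hx₀]) a.1 a.2 ha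
  -- local conditions
  have hE1 : ∀ᶠ y in 𝓝 x₀, ∀ a : ι × ℤ, β ^ (-a.2) * y ∈ Cls (T a.1) → a ∈ A := by
    filter_upwards [c1 x₀ hx0] with y hy a ha
    exact hy a.1 a.2 ha
  have hE2 : ∀ᶠ y in 𝓝 x₀, ∀ a ∈ A, ∀ t : Fin 3, β ^ (-a.2) * x₀ = T a.1 t →
      0 < ht (T a.1 (t + 1)) (T a.1 (t + 2)) (β ^ (-a.2) * y) := by
    rw [eventually_all_finite hfin]
    intro a ha
    rw [eventually_all]
    intro t
    by_cases hv : β ^ (-a.2) * x₀ = T a.1 t
    · have h5 : 0 < ht (T a.1 (t + 1)) (T a.1 (t + 2)) (β ^ (-a.2) * x₀) := by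
        have h6 := (hTG a.1).1 (t + 1)
        have h7 : t + 1 + 1 = t + 2 := vl_two t
        have h8 : t + 1 + 2 = t := by
          have : ∀ t : Fin 3, t + 1 + 2 = t := by decide
          exact this t
        rw [h7, h8] at h6
        rw [hv]
        exact h6
      have h9 := (vl_ht_cont (T a.1 (t + 1)) (T a.1 (t + 2)) (β ^ (-a.2))).continuousAt
        (x := x₀)
      filter_upwards [h9.eventually (lt_mem_nhds h5)] with y hy _
      exact hy
    · exact Eventually.of_forall fun y h => absurd h hv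
  obtain ⟨ε, hε, hball⟩ := Metric.eventually_nhds_iff.1 (hE1.and hE2)
  -- the two triangles
  have hvi : β ^ (-(0 : ℤ)) * x₀ = T i s := by simp [hx₀]
  have hvi' : β ^ (-k) * x₀ = T i' s' := by
    rw [hx, ← mul_assoc, zpow_neg, inv_mul_cancel₀ (zpow_ne_zero _ hβ), one_mul]
  have hseg : ∀ j s, segment ℝ (T j s) (T j (s + 1)) ⊆ Cls (T j) :=
    fun j => (hTG j).2.2.2.2.2.2.2.1
  obtain ⟨p1, q1⟩ := vl_pt (hseg i) (hinj i) hβ 0 x₀ s hvi
  obtain ⟨p2, q2⟩ := vl_pt (hseg i') (hinj i') hβ k x₀ s' hvi'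
  set e1 := ‖β ^ (0 : ℤ) * T i (s + 1) - x₀‖ with he1
  set e2 := ‖β ^ k * T i' (s' + 1) - x₀‖ with he2
  have hn0 : 0 < ‖x₀‖ := norm_pos_iff.2 hx0
  obtain ⟨r, hr, r1, r2, r3, r4⟩ : ∃ r : ℝ, 0 < r ∧ r < ε ∧ r ≤ e1 ∧ r ≤ e2 ∧ r < ‖x₀‖ := by
    refine ⟨min (min ε e1) (min e2 ‖x₀‖) / 2, ?_, ?_, ?_, ?_, ?_⟩
    · have : 0 < min (min ε e1) (min e2 ‖x₀‖) := by
        simp only [lt_min_iff]
        exact ⟨⟨hε, p1⟩, p2, hn0⟩
      linarith
    all_goals
      have h0 : 0 < min (min ε e1) (min e2 ‖x₀‖) := by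
        simp only [lt_min_iff]
        exact ⟨⟨hε, p1⟩, p2, hn0⟩
      have ha : min (min ε e1) (min e2 ‖x₀‖) ≤ ε := (min_le_left _ _).trans (min_le_left _ _)
      have hb : min (min ε e1) (min e2 ‖x₀‖) ≤ e1 := (min_le_left _ _).trans (min_le_right _ _)
      have hc : min (min ε e1) (min e2 ‖x₀‖) ≤ e2 := (min_le_right _ _).trans (min_le_left _ _)
      have hd : min (min ε e1) (min e2 ‖x₀‖) ≤ ‖x₀‖ :=
        (min_le_right _ _).trans (min_le_right _ _)
      linarith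
  have hS : ∀ y ∈ Metric.sphere x₀ r,
      (∀ a : ι × ℤ, β ^ (-a.2) * y ∈ Cls (T a.1) → a ∈ A) ∧
      (∀ a ∈ A, ∀ t : Fin 3, β ^ (-a.2) * x₀ = T a.1 t →
        0 < ht (T a.1 (t + 1)) (T a.1 (t + 2)) (β ^ (-a.2) * y)) := by
    intro y hy
    apply hball
    rw [Metric.mem_sphere.1 hy]
    exact r1
  by_contra hcon
  -- the two closed sets
  set B : Set ℂ := ⋃ a ∈ {a ∈ A | ∃ t, β ^ (-a.2) * x₀ = T a.1 t ∧ lab a.1 t + a.2 = lab i s},
    (fun y => β ^ (-a.2) * y) ⁻¹' Cls (T a.1) with hB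
  set B' : Set ℂ := ⋃ a ∈ {a ∈ A | ∃ t, β ^ (-a.2) * x₀ = T a.1 t ∧ lab a.1 t + a.2 ≠ lab i s},
    (fun y => β ^ (-a.2) * y) ⁻¹' Cls (T a.1) with hB'
  have hcl : ∀ a : ι × ℤ, IsClosed ((fun y : ℂ => β ^ (-a.2) * y) ⁻¹' Cls (T a.1)) := by
    intro a
    exact (hTG a.1).2.2.1.isClosed.preimage (by fun_prop)
  have hBc : IsClosed B := (hfin.subset (sep_subset _ _)).isClosed_biUnion fun a _ => hcl a
  have hBc' : IsClosed B' := (hfin.subset (sep_subset _ _)).isClosed_biUnion fun a _ => hcl a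
  have hpre : IsPreconnected (Metric.sphere x₀ r) :=
    isPreconnected_sphere (by rw [Complex.rank_real_complex]; norm_num) x₀ r
  have hcov : Metric.sphere x₀ r ⊆ B ∪ B' := by
    intro y hy
    have hy0 : y ≠ 0 := by
      intro h0
      have h5 := Metric.mem_sphere.1 hy
      rw [h0, dist_zero_left] at h5
      linarith
    obtain ⟨j, m, hjm⟩ := c2 y hy0
    have ha : (j, m) ∈ A := (hS y hy).1 (j, m) hjm
    obtain ⟨t, ht⟩ := hvert (j, m) ha
    by_cases hl : lab j t + m = lab i s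
    · left
      exact mem_biUnion (x := (j, m)) ⟨ha, t, ht, hl⟩ hjm
    · right
      exact mem_biUnion (x := (j, m)) ⟨ha, t, ht, hl⟩ hjm
  have hne1 : (Metric.sphere x₀ r ∩ B).Nonempty := by
    obtain ⟨y, hy, hy'⟩ := q1 r hr r2
    have hiA : (i, (0 : ℤ)) ∈ A := (hS y hy).1 (i, 0) hy'
    exact ⟨y, hy, mem_biUnion (x := (i, (0 : ℤ))) ⟨hiA, s, hvi, by simp⟩ hy'⟩
  have hne2 : (Metric.sphere x₀ r ∩ B').Nonempty := by
    obtain ⟨y, hy, hy'⟩ := q2 r hr r3
    have hiA : (i', k) ∈ A := (hS y hy).1 (i', k) hy'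
    exact ⟨y, hy, mem_biUnion (x := (i', k)) ⟨hiA, s', hvi', fun h => hcon h.symm⟩ hy'⟩
  obtain ⟨y, hy, hyB, hyB'⟩ := isPreconnected_closed_iff.1 hpre B B' hBc hBc' hcov hne1 hne2
  simp only [hB, hB', mem_iUnion, mem_ofPred_eq, mem_preimage, exists_prop] at hyB hyB'
  obtain ⟨⟨j, m⟩, ⟨ha, t, hvt, hlt⟩, hya⟩ := hyB
  obtain ⟨⟨j', m'⟩, ⟨ha', t', hvt', hlt'⟩, hya'⟩ := hyB'
  simp only at hvt hlt hya hvt' hlt' hya'
  have hloc := (hS y hy).2 (j, m) ha t hvt
  simp only at hloc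
  -- the same triangle is impossible
  have hsame : ¬ (j' = j ∧ m' = m) := by
    rintro ⟨rfl, rfl⟩
    have h5 : t = t' := hinj _ (by rw [← hvt, ← hvt'])
    rw [← h5] at hlt'
    exact hlt' hlt
  rcases (hTG j).2.2.2.2.2.2.2.2.1 _ hya with ho | ⟨u, hu⟩ | ⟨u, hu⟩
  · obtain ⟨h5, h6⟩ := c3 y j j' m m' ho hya'
    exact hsame ⟨h5.symm, h6.symm⟩
  · rcases d1 y j u m hu j' m' hya' with h5 | ⟨h5, h6⟩
    · exact hsame h5
    · have hmul : β ^ (-m') = β ^ (-(nb j u).2.2) * β ^ (-m) := by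
        rw [← zpow_add₀ hβ, h6]
        congr 1
        ring
      have hcan : β ^ (-(nb j u).2.2) * β ^ ((nb j u).2.2) = 1 := by
        rw [zpow_neg]
        exact inv_mul_cancel₀ (zpow_ne_zero _ hβ)
      rcases vl_cases t u with h7 | h7 | h7
      · subst h7
        have h8 : T j' t' = T j' ((nb j u).2.1 + 1) := by
          rw [← hvt', hmul, mul_assoc, hvt, hτ.nb1 j u, ← mul_assoc, hcan, one_mul, h5]
        have h9 := hinj _ h8
        apply hlt'
        have h10 := l1 j u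
        rw [h9, h5, h6, ← hlt, h10]
        ring
      · subst h7
        have h8 := ((hTG j).2.2.2.2.2.2.2.2.2 (t + 1) _ hu).1
        have h9 : t + 1 + 1 = t + 2 := vl_two t
        rw [h9] at h8
        rw [h8] at hloc
        exact lt_irrefl _ hloc
      · subst h7
        have h11 : t + 2 + 1 = t := by
          have : ∀ t : Fin 3, t + 2 + 1 = t := by decide
          exact this t
        have h12 := hτ.nb2 j (t + 2)
        rw [h11] at h12
        have h8 : T j' t' = T j' ((nb j (t + 2)).2.1) := by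
          rw [← hvt', hmul, mul_assoc, hvt, h12, ← mul_assoc, hcan, one_mul, h5]
        have h9 := hinj _ h8
        apply hlt'
        have h10 := l2 j (t + 2)
        rw [h11] at h10
        rw [h9, h5, h6, ← hlt, h10]
        ring
  · rcases vl_cases t u with h7 | h7 | h7
    · subst h7
      rw [← hvt] at hu
      have h8 : y = x₀ := mul_left_cancel₀ (zpow_ne_zero _ hβ) hu
      have h9 := Metric.mem_sphere.1 hy
      rw [h8, dist_self] at h9
      linarith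
    · subst h7
      rw [hu] at hloc
      simp [ht] at hloc
    · subst h7
      rw [hu] at hloc
      have h8 : T j (t + 2) - T j (t + 1) ≠ 0 := by
        intro h9
        have h10 := hinj j (sub_eq_zero.1 h9)
        have : ∀ t : Fin 3, t + 2 ≠ t + 1 := by decide
        exact this t h10
      simp [ht, div_self h8] at hloc

end Pool.Agent.Helper56.FM
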