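import Pool.Agent.Helper56.FM.Asm
import Pool.Agent.Helper56.FM.M_GG
import Pool.Agent.Helper56.FM.M_GP
import Pool.Agent.Helper56.FM.M_GW
import Pool.Agent.Helper56.FM.M_GT
import Pool.Agent.Helper56.FM.M_GE
import Pool.Agent.Helper56.FM.M_NB
import Pool.Agent.Helper56.FM.M_CH
import Pool.Agent.Helper56.FM.M_WI
import Pool.Agent.Helper56.FM.M_VL
import Pool.Agent.Helper56.FM.M_TL
import Pool.Agent.Helper56.FM.M_RF
import Pool.Agent.Helper56.FM.M_LQ
import Pool.Agent.Helper56.FM.M_CP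
import Pool.Agent.Helper56.FM.M_NR
import Pool.Agent.Helper56.FM.M_NP
import Pool.Agent.Helper56.FM.M_JJ
import Pool.Agent.Helper56.FM.M_EX
import Pool.Agent.Helper54.TRI.M_KP
import Pool.Agent.Helper54.TRI.M_KW
import Pool.Agent.Helper54.TRI.M_KT
import Pool.Agent.Helper54.TRI.M_KE
import Pool.Agent.Helper54.TRI.M_FF
import Pool.Agent.Helper56.TW.Red2

/-!
# Project FM: the wavelets of a certificate of the family
-/

set_option autoImplicit false

open Set Filter Topology Matrix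
open Pool.Agent.Helper54.Wav

noncomputable section

namespace Pool.Agent.Helper56.FM

open Pool.Agent.Helper54.TRI

theorem pTL : StTL := m_TL pTG m_GEN (m_DEG m_ARG)

theorem pVL : StVL := m_VL pTG pCF1 pCF2 pCF3

theorem pAT : StAT :=
  m_AT m_GG (m_GP m_KP) (m_GW m_KW) (m_GT (m_KT m_FF)) (m_GE (m_KE m_FF)) m_NB m_CH m_WI pVL pTL

/-- If `B q` is an integer vector for a nonzero integer vector `q`, then `1` is an exponent. -/
theorem one_mem_exps {A : Matrix (Fin 2) (Fin 2) ℝ} (hA : A.det ≠ 0) {p q : Fin 2 → ℤ}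
    (hq : q ≠ 0) (h : zv p = Aᵀ *ᵥ zv q) : (1 : ℤ) ∈ WavN.Exps A := by
  have e0 : ∀ p : Fin 2 → ℤ, Wav.act (A.transpose ^ (0 : ℤ)) (Wav.ivec p) = Wav.ivec p := by
    intro p
    rw [zpow_zero]
    exact Wav.act_one _
  have h1 : Wav.act (A.transpose ^ (1 : ℤ)) (Wav.ivec q) = Wav.ivec p := by
    rw [zpow_one]
    unfold Wav.act Wav.ivec
    exact congrArg (WithLp.toLp 2) h.symm
  refine ⟨Wav.ivec p, fun h0 => hq ?_, ⟨p, e0 p⟩, ⟨q, h1⟩⟩
  have hdetT : (A.transpose ^ (1 : ℤ)).det ≠ 0 := by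
    rwa [zpow_one, Matrix.det_transpose]
  apply WavN.ivec_eq_zero
  apply Wav.act_inj hdetT
  rw [h1, h0]
  unfold Wav.act
  simp

/-- The two definitions of expansive matrices agree. -/
theorem exp_iff {n : ℕ} (A : Matrix (Fin n) (Fin n) ℝ) :
    _root_.Wav.Expansive A ↔ Pool.Agent.Helper54.Wav.Expansive A := by
  unfold _root_.Wav.Expansive Pool.Agent.Helper54.Wav.Expansive
  constructor
  · intro h z hz
    exact h z (Matrix.mem_spectrum_iff_isRoot_charpoly.2 hz)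
  · intro h z hz
    exact h z (Matrix.mem_spectrum_iff_isRoot_charpoly.1 hz)

/-- `s` is covered by a certificate. -/
def Covered (s : ℚ) : Prop := ∀ r β, Fam s r β → ∃ (cs : List ℤ) (N : ℤ) (X : Cert PQ), 0 < N ∧
  X.check (famOps cs N) = true ∧ ∃ c ∈ cs, |(N : ℝ) * r - c| ≤ 1

/-- The wavelet from a certificate. -/
theorem wavelet_of_cov {s : ℚ} {r : ℝ} {β : ℂ} (hF : Fam s r β) (hcov : Covered s)
    {A : Matrix (Fin 2) (Fin 2) ℝ} (htr : A.trace = 2 * β.re) (hdet : A.det = Complex.normSq β)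
    (hex : ∃ p q : Fin 2 → ℤ, q ≠ 0 ∧ zv p = Aᵀ *ᵥ zv q) :
    Pool.Agent.Helper54.WavS.HasSchwartzWavelet A := by
  obtain ⟨cs, N, X, hN, hX, hc⟩ := hcov r β hF
  have hS := m_SND m_RF cs N s r β hN hF hc
  obtain ⟨K, Λ, ε, R, hP⟩ := kernel_of_cert pAT m_GG hS X hX
  refine wavelet_of_kernel (m_LQ m_LAT) Pool.Agent.Helper56.TW.g_Red hS.one_lt ?_ hP ?_ ?_ hex
  · rw [Complex.conj_im]
    exact neg_ne_zero.2 hF.im.ne'
  · rw [Complex.conj_re]
    exact htr
  · rw [Complex.normSq_conj]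
    exact hdet

end Pool.Agent.Helper56.FM
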