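import Pool.Agent.Helper56.FM.Fam

/-!
# Project FM, module SND: the operations of the family are correct
-/

set_option autoImplicit false

open Set Filter Topology Matrix
open Pool.Agent.Helper54.Wav

noncomputable section

namespace Pool.Agent.Helper56.FM

open Pool.Agent.Helper54.TRI

theorem ev_qsub (s : ℚ) (β : ℂ) (u v : PQ) : ev s β (qsub u v) = ev s β u - ev s β v := by
  simp only [ev, qsub, pev_psub]
  ring

theorem ev_qneg (s : ℚ) (β : ℂ) (u : PQ) : ev s β (qneg u) = - ev s β u := by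
  simp only [ev, qneg, pev_pneg]
  ring

theorem ev_pB {s : ℚ} {β : ℂ} (h : β ^ 3 + β ^ 2 + β = (s : ℂ)) (u : PQ) :
    ev s β (pB u) = β * ev s β u := by
  simp only [ev, pB, pev_psub, pev_padd, pev_cons]
  push_cast
  linear_combination (- pev u.2.1 (s : ℂ)) * h

theorem ev_pA {s : ℚ} {β : ℂ} (h : β ^ 3 + β ^ 2 + β = (s : ℂ)) (u : PQ) :
    β * ev s β (pA u) = (s : ℂ) * ev s β u := by
  simp only [ev, pA, pev_padd, pev_cons]
  push_cast
  linear_combination ((s : ℂ) * pev u.2.2 (s : ℂ)) * h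

theorem ev_pBn {s : ℚ} {β : ℂ} (h : β ^ 3 + β ^ 2 + β = (s : ℂ)) (n : ℕ) (u : PQ) :
    ev s β (pBn n u) = β ^ n * ev s β u := by
  induction n with
  | zero => simp [pBn]
  | succ n ih =>
    rw [pBn, ev_pB h, ih, pow_succ']
    ring

theorem ev_pAn {s : ℚ} {β : ℂ} (h : β ^ 3 + β ^ 2 + β = (s : ℂ)) (n : ℕ) (u : PQ) :
    β ^ n * ev s β (pAn n u) = (s : ℂ) ^ n * ev s β u := by
  induction n with
  | zero => simp [pAn]
  | succ n ih =>
    rw [pAn, pow_succ, mul_assoc, ev_pA h, pow_succ]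
    linear_combination (s : ℂ) * ih

/-- Rational values of integer polynomials. -/
theorem pev_rat (a : Po) (s : ℚ) : pev a (s : ℂ) = ((pev a s : ℚ) : ℂ) := by
  induction a with
  | nil => simp
  | cons c a ih =>
    rw [pev_cons, pev_cons, ih]
    push_cast
    rfl

theorem pev_realC (a : Po) (s : ℚ) : pev a (s : ℂ) = ((pev a (s : ℝ) : ℝ) : ℂ) := by
  induction a with
  | nil => simp
  | cons c a ih =>
    rw [pev_cons, pev_cons, ih]
    push_cast
    rfl

/-- Orientation of `u`, `v`. -/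
theorem orient_pdet (hr : StRF) {s : ℚ} {r : ℝ} {β : ℂ} (hF : Fam s r β) (u v : PQ) :
    ((starRingEnd ℂ) (ev s β u) * ev s β v).im = β.im * (r ^ 2 + r + 1) * pev (pdet u v) r := by
  obtain ⟨h1, h2, -, -⟩ := hr.1 s r β hF
  have hS : pev pS r = (s : ℝ) := by
    rw [← hF.real]
    simp [pS]
    ring
  have hd : pev (pdet u v) r =
      (pev u.1 (s : ℝ) * pev v.2.1 (s : ℝ) - pev u.2.1 (s : ℝ) * pev v.1 (s : ℝ)) -
      r * (pev u.1 (s : ℝ) * pev v.2.2 (s : ℝ) - pev u.2.2 (s : ℝ) * pev v.1 (s : ℝ)) +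
      r ^ 2 * (pev u.2.1 (s : ℝ) * pev v.2.2 (s : ℝ) - pev u.2.2 (s : ℝ) * pev v.2.1 (s : ℝ)) := by
    simp only [pdet, pev_padd, pev_cons, pev_pneg, pev_pcomp, pev_psub, pev_pmul, hS]
    push_cast
    ring
  rw [hd]
  simp only [ev, pev_realC]
  have hs : (s : ℂ) = (((s : ℝ)) : ℂ) := by push_cast; rfl
  rw [hs]
  generalize (pev u.1 (s : ℝ) : ℝ) = a1
  generalize (pev u.2.1 (s : ℝ) : ℝ) = a2
  generalize (pev u.2.2 (s : ℝ) : ℝ) = a3
  generalize (pev v.1 (s : ℝ) : ℝ) = b1
  generalize (pev v.2.1 (s : ℝ) : ℝ) = b2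
  generalize (pev v.2.2 (s : ℝ) : ℝ) = b3
  rw [Complex.normSq_apply] at h2
  rw [← hF.real]
  simp only [Complex.mul_im, Complex.conj_re, Complex.conj_im, Complex.add_re, Complex.add_im,
    Complex.mul_re, Complex.ofReal_re, Complex.ofReal_im, pow_two]
  have h3 : β.re = -(1 + r) / 2 := by linarith
  have h4 : β.im * β.im = r ^ 2 + r + 1 - β.re * β.re := by linarith
  have h5 : β.im * β.im * β.im = (r ^ 2 + r + 1 - β.re * β.re) * β.im := by rw [h4]
  rw [h3] at h5 ⊢
  ring_nf
  ring_nf at h5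
  linear_combination (a1 * b2 - a2 * b1) * h5

theorem pev_conj (a : Po) (s : ℚ) : (starRingEnd ℂ) (pev a (s : ℂ)) = pev a (s : ℂ) := by
  rw [pev_rat]
  simp

theorem ev_conj (s : ℚ) (β : ℂ) (u : PQ) :
    ev s (starRingEnd ℂ β) u = (starRingEnd ℂ) (ev s β u) := by
  simp [ev, pev_conj]

theorem qpos_spec (hr : StRF) {cs : List ℤ} {N : ℤ} {s : ℚ} {r : ℝ} {β₀ β : ℂ} (hN : 0 < N)
    (hF : Fam s r β₀) (hβ : β = starRingEnd ℂ β₀) (hc : ∃ c ∈ cs, |(N : ℝ) * r - c| ≤ 1)
    (p q t : PQ) (h : qpos cs N p q t = true) : 0 < ht (ev s β p) (ev s β q) (ev s β t) := by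
  have h1 := posP_spec cs N hN _ h r hc
  have h2 := orient_pdet hr hF (qsub t p) (qsub q p)
  rw [ev_qsub, ev_qsub] at h2
  have h3 : 0 < ((starRingEnd ℂ) (ev s β q - ev s β p) * (ev s β t - ev s β p)).im := by
    have e1 : (starRingEnd ℂ) (ev s β q - ev s β p) * (ev s β t - ev s β p) =
        (starRingEnd ℂ) (ev s β₀ t - ev s β₀ p) * (ev s β₀ q - ev s β₀ p) := by
      rw [hβ, ev_conj, ev_conj, ev_conj, ← map_sub, ← map_sub, Complex.conj_conj]
      ring
    rw [e1, h2]
    have h4 := hF.pos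
    have h5 := hF.im
    positivity
  have hne : ev s β q - ev s β p ≠ 0 := by
    intro h0
    rw [h0] at h3
    simp at h3
  unfold ht
  have h6 : (ev s β t - ev s β p) / (ev s β q - ev s β p) =
      ((starRingEnd ℂ) (ev s β q - ev s β p) * (ev s β t - ev s β p)) /
        ((Complex.normSq (ev s β q - ev s β p) : ℝ) : ℂ) := by
    rw [Complex.normSq_eq_conj_mul_self]
    have hne' : (starRingEnd ℂ) (ev s β q - ev s β p) ≠ 0 := by
      rwa [Ne, map_eq_zero]
    field_simp
  rw [h6, Complex.div_ofReal_im]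
  exact div_pos h3 (Complex.normSq_pos.2 hne)

theorem m_SND (hr : StRF) : StSND := by
  intro cs N s r β₀ hN hF hc
  obtain ⟨h1, h2, h3', -⟩ := hr.1 s r β₀ hF
  obtain ⟨β, hβ⟩ : ∃ β, β = starRingEnd ℂ β₀ := ⟨_, rfl⟩
  rw [← hβ]
  have h3 : 1 < ‖β‖ := by
    rw [hβ, RCLike.norm_conj]
    exact h3'
  have hcub : β ^ 3 + β ^ 2 + β = (s : ℂ) := by
    have := congrArg (starRingEnd ℂ) hF.cub
    simpa [hβ] using this
  have hs : 0 < (s : ℝ) := by
    rw [← hF.real]
    have := hF.pos
    positivity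
  have hsC : (s : ℂ) ≠ 0 := by
    have : (s : ℝ) ≠ 0 := hs.ne'
    exact_mod_cast this
  have hβ0 : β ≠ 0 := by
    rintro rfl
    simp at h3
    linarith
  have hzero : ev s β ([], [], []) = 0 := by simp [ev]
  have hpos := fun p q t h => qpos_spec hr hN hF hβ hc p q t h
  have hnz1 : ∀ u v : PQ, qpos cs N ([], [], []) u v = true → ev s β v ≠ 0 := by
    intro u v h h0
    have := hpos _ _ _ h
    rw [h0, hzero] at this
    simp [ht] at this
  have hnz2 : ∀ u v : PQ, qpos cs N ([], [], []) v u = true → ev s β v ≠ 0 := by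
    intro u v h h0
    have := hpos _ _ _ h
    rw [h0, hzero] at this
    simp [ht] at this
  exact
    { one_lt := h3
      zero := hzero
      one := ⟨(s : ℝ), hs, by simp [ev, famOps]⟩
      sub := ev_qsub s β
      neg := ev_qneg s β
      mul := ev_pBn hcub
      isz := by
        intro u h
        have h : (pz u.1 && (pz u.2.1 && pz u.2.2)) = true := h
        rw [Bool.and_eq_true, Bool.and_eq_true] at h
        obtain ⟨a, b, c⟩ := h
        rw [ev, pev_pz _ a, pev_pz _ b, pev_pz _ c]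
        ring
      nz := by
        intro v h
        have h : (qpos cs N ([], [], []) ([], [], [1]) v || (qpos cs N ([], [], []) v ([], [], [1]) ||
          (qpos cs N ([], [], []) ([1], [], []) v || qpos cs N ([], [], []) v ([1], [], [])))) =
          true := h
        rw [Bool.or_eq_true, Bool.or_eq_true, Bool.or_eq_true] at h
        rcases h with h | h | h | h
        · exact hnz1 _ _ h
        · exact hnz2 _ _ h
        · exact hnz1 _ _ h
        · exact hnz2 _ _ h
      pos := hpos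
      inG := by
        intro l v h
        have h : (if 1 ≤ l then pz (pAn (l - 1).toNat v).2.1 else pz (pBn (1 - l).toNat v).2.1) =
          true := h
        by_cases hl : 1 ≤ l
        · rw [if_pos hl] at h
          have e1 := ev_pAn hcub (l - 1).toNat v
          set n := (l - 1).toNat with hn
          have hln : l = (n : ℤ) + 1 := by omega
          rw [ev, pev_pz _ h, pev_rat, pev_rat] at e1
          refine ⟨pev (pAn n v).1 s / s ^ n, pev (pAn n v).2.2 s * s / s ^ n, ?_⟩
          have hsn : (s : ℂ) ^ n ≠ 0 := pow_ne_zero _ hsC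
          have e2 : ev s β v = ((s : ℂ) ^ n)⁻¹ * (β ^ n *
              (((pev (pAn n v).1 s : ℚ) : ℂ) * β + 0 * (β ^ 2 + β) +
                ((pev (pAn n v).2.2 s : ℚ) : ℂ) * (s : ℂ))) := by
            rw [e1, ← mul_assoc, inv_mul_cancel₀ hsn, one_mul]
          rw [e2, hln, zpow_add₀ hβ0, zpow_natCast, zpow_one]
          push_cast
          field_simp
          ring
        · rw [if_neg hl] at h
          have e1 := ev_pBn hcub (1 - l).toNat v
          set n := (1 - l).toNat with hn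
          have hln : l = 1 - (n : ℤ) := by omega
          rw [ev, pev_pz _ h, pev_rat, pev_rat] at e1
          refine ⟨pev (pBn n v).1 s, pev (pBn n v).2.2 s * s, ?_⟩
          have hbn : β ^ n ≠ 0 := pow_ne_zero _ hβ0
          have e2 : ev s β v = (β ^ n)⁻¹ *
              (((pev (pBn n v).1 s : ℚ) : ℂ) * β + 0 * (β ^ 2 + β) +
                ((pev (pBn n v).2.2 s : ℚ) : ℂ) * (s : ℂ)) := by
            rw [e1, ← mul_assoc, inv_mul_cancel₀ hbn, one_mul]
          rw [e2, hln, zpow_sub₀ hβ0, zpow_natCast, zpow_one]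
          push_cast
          field_simp
          ring
      g0 := fun l => ⟨0, 0, by simp⟩
      gn := by
        rintro l u ⟨x, y, rfl⟩
        refine ⟨-x, -y, ?_⟩
        push_cast
        ring
      ga := by
        rintro l k u ⟨x, y, rfl⟩
        refine ⟨x, y, ?_⟩
        rw [zpow_add₀ hβ0]
        ring }

end Pool.Agent.Helper56.FM
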