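import Pool.Agent.Helper56.FM.M_AT
import Pool.Agent.Helper56.FM.M_SND
import Pool.Agent.Helper54.TRI.M_TG
import Pool.Agent.Helper54.TRI.M_ARG
import Pool.Agent.Helper54.TRI.M_DEG
import Pool.Agent.Helper54.TRI.M_GEN
import Pool.Agent.Helper54.TRI.M_CF1
import Pool.Agent.Helper54.TRI.M_CF2
import Pool.Agent.Helper54.TRI.M_CF3
import Pool.Agent.Helper54.TRI.M_PH
import Pool.Agent.Helper54.TRI.M_ETA
import Pool.Agent.Helper54.TRI.M_GLU
import Pool.Agent.Helper54.TRI.M_ATL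
import Pool.Agent.Helper54.TRI.M_TRF
import Pool.Agent.Helper54.TRI.M_LAT

/-!
# Project FM: from the atlas to the wavelets
-/

set_option autoImplicit false

open Set Filter Topology Matrix
open Pool.Agent.Helper54.Wav

noncomputable section

namespace Pool.Agent.Helper56.FM

open Pool.Agent.Helper54.TRI

theorem pTG : StTG := Pool.Agent.Helper54.TRI.m_TG
theorem pCF1 : StCF1 := m_CF1 pTG
theorem pCF2 : StCF2 := m_CF2 pTG pCF1
theorem pCF3 : StCF3 := m_CF3 pTG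
theorem pGLU : StGLU := m_GLU pTG m_PH pCF1 pCF2
theorem pATL : StATL := m_ATL pTG pCF1 pCF3 pGLU
theorem pETA : StETA := m_ETA pTG m_PH

/-- The kernel of a certificate. -/
theorem kernel_of_cert (hat : StAT) (hgg : StGG) {Q : Type} {M : Ops Q} {β : ℂ} {e : Q → ℂ}
    {Γ : ℤ → ℂ → Prop} (hM : Sound M β e Γ) (X : Cert Q) (hX : X.check M = true) :
    ∃ K Λ ε R, PatC β (Γ 0) K Λ ε R := by
  obtain ⟨nb, hA⟩ := hat Q M β e Γ hM X hX
  have hpos : ∀ c : Fin X.CS.length, Pos (X.C M e c).P := by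
    intro c
    have hX' := hX
    unfold Cert.check at hX'
    simp only [Bool.and_eq_true] at hX'
    obtain ⟨hG, -, -, -⟩ := hX'
    unfold Cert.chkG at hG
    rw [List.all_eq_true] at hG
    have := hG _ (cl_mem X c)
    rw [Bool.and_eq_true] at this
    exact (hgg Q M β e Γ hM X _ this.1).2.1
  choose η hη using fun c => pETA _ (hpos c)
  obtain ⟨⟨Λ, ε, R, h⟩, -⟩ := pATL _ _ _ _ _ _ _ η hA hη
  exact ⟨_, Λ, ε, R, h⟩

/-- The wavelet, from the kernel. -/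
theorem wavelet_of_kernel (hLQ : StLQ) (hG6 : Pool.Agent.Helper56.TW.StG6) {β : ℂ}
    (hβ : 1 < ‖β‖) (him : β.im ≠ 0) {K : ℂ → ℂ → ℝ} {Λ : Finset ℂ} {ε R : ℝ}
    (hP : PatC β (Gq β 0) K Λ ε R) {A : Matrix (Fin 2) (Fin 2) ℝ}
    (htr : A.trace = 2 * β.re) (hdet : A.det = Complex.normSq β)
    (hex : ∃ p q : Fin 2 → ℤ, q ≠ 0 ∧ zv p = Aᵀ *ᵥ zv q) :
    Pool.Agent.Helper54.WavS.HasSchwartzWavelet A := by
  obtain ⟨p, q, hq, hpq⟩ := hex
  obtain ⟨φ, hinj, hφ, hlat⟩ := hLQ β Aᵀ p q him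
    (by rw [Matrix.trace_transpose]; exact htr) (by rw [Matrix.det_transpose]; exact hdet) hq hpq
    Λ hP.lat
  have hP' : PatC β (fun u => u ∈ Λ) K Λ ε R :=
    { smooth := hP.smooth
      supp := hP.supp
      lat := fun v hv => hv
      eps := hP.eps
      near := hP.near
      far := hP.far
      symm := hP.symm
      idem := hP.idem
      tele := hP.tele }
  obtain ⟨Λ', ν, κ, hR⟩ := m_TRF β (fun u => u ∈ Λ) K Λ ε R Aᵀ φ hβ hinj hφ hlat hP'
  have := hG6 Aᵀ _ Λ' ν κ ε R hR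
  rwa [Matrix.transpose_transpose] at this

end Pool.Agent.Helper56.FM
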