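import Pool.Agent.Helper54.TRI.St3

/-!
# Project FM (MP_d629b1, n = 2), part 1: certificates over a computable set of points

`Q` is a set of computable points (for example vectors of polynomials in parameters), `M : Ops Q` the
computable operations and tests, `e : Q → ℂ` the evaluation at the actual parameters; all levels of
vertex references are natural numbers, so only nonnegative powers of `β` are computed.
-/

set_option autoImplicit false

noncomputable section

namespace Pool.Agent.Helper56.FM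

open Pool.Agent.Helper54.TRI

/-- Computable operations and sufficient tests. -/
structure Ops (Q : Type) where
  zero : Q
  one : Q
  sub : Q → Q → Q
  neg : Q → Q
  mul : ℕ → Q → Q
  isz : Q → Bool
  nz : Q → Bool
  pos : Q → Q → Q → Bool
  inG : ℤ → Q → Bool

/-- The tests are correct for the evaluation `e`, the dilation `β` and the lattices `Γ l`. -/
structure Sound {Q : Type} (M : Ops Q) (β : ℂ) (e : Q → ℂ) (Γ : ℤ → ℂ → Prop) : Prop where
  one_lt : 1 < ‖β‖
  zero : e M.zero = 0
  one : ∃ c : ℝ, 0 < c ∧ e M.one = (c : ℂ)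
  sub : ∀ u v, e (M.sub u v) = e u - e v
  neg : ∀ u, e (M.neg u) = - e u
  mul : ∀ n u, e (M.mul n u) = β ^ n * e u
  isz : ∀ u, M.isz u = true → e u = 0
  nz : ∀ u, M.nz u = true → e u ≠ 0
  pos : ∀ p q r, M.pos p q r = true → 0 < ht (e p) (e q) (e r)
  inG : ∀ l u, M.inG l u = true → Γ l (e u)
  g0 : ∀ l, Γ l 0
  gn : ∀ l u, Γ l u → Γ l (-u)
  ga : ∀ (l k : ℤ) u, Γ l u → Γ (l + k) (β ^ k * u)

/-- Vertex reference: number in the table and power of `β`. -/
abbrev Rf : Type := ℕ × ℕ

/-- Triangle. -/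
abbrev Tr : Type := Rf × Rf × Rf

def trv (t : Tr) (s : Fin 3) : Rf := if s = 0 then t.1 else if s = 1 then t.2.1 else t.2.2

/-- One power of `β` more. -/
def sh1 (r : Rf) : Rf := (r.1, r.2 + 1)

/-- `r = β^m r'`. -/
def eqr (m : ℤ) (r r' : Rf) : Bool := decide (r.1 = r'.1) && decide ((r.2 : ℤ) = (r'.2 : ℤ) + m)

/-- Cluster data. -/
inductive CD where
  | P (t : Tr) : CD
  | W (e : ℤ) (t0 t1 : Tr) : CD
  | T (t0 t1 t2 t3 : Tr) : CD
  | E (t0 t1 t2 : Tr) : CD

/-- Number of copies. -/
def CD.n : CD → ℕ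
  | .P _ => 1
  | .W _ _ _ => 2
  | .T _ _ _ _ => 4
  | .E _ _ _ => 3

/-- Copy `a`. -/
def CD.tr : CD → ℕ → Tr
  | .P t, _ => t
  | .W _ t0 t1, a => if a = 0 then t0 else t1
  | .T t0 t1 t2 t3, a => if a = 0 then t0 else if a = 1 then t1 else if a = 2 then t2 else t3
  | .E t0 t1 t2, a => if a = 0 then t0 else if a = 1 then t1 else t2

/-- Computable edge forms. -/
inductive ZF (Q : Type) where
  | pure (l : ℤ) : ZF Q
  | wall (i j : ℤ) (v : Q) (e : ℤ) : ZF Q

/-- `f = β^m (reverse of g)`. -/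
def eqf {Q : Type} (M : Ops Q) (m : ℤ) : ZF Q → ZF Q → Bool
  | .pure l, .pure l' => decide (l = l' + m)
  | .wall i j v e, .wall i' j' v' e' =>
      decide (i = j' + m) && (decide (j = i' + m) && (decide (e = -e') &&
        (if 0 ≤ m then M.isz (M.sub v (M.mul m.toNat v')) else M.isz (M.sub (M.mul (-m).toNat v) v'))))
  | _, _ => false

/-- A certificate: vertex table (position, label), clusters, neighbours (for each cluster, copy, side: cluster, copy, side, power), seam. -/
structure Cert (Q : Type) where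
  V : List (Q × ℤ)
  CS : List CD
  NB : List (List (List (ℕ × ℕ × ℕ × ℤ)))
  seam : List Rf

/-- Signs of a tetrahedral cluster. -/
def sT (a : Fin 4) : ℤ := if a = 2 then -1 else 1

/-- Directed sides of a triangle. -/
def sides (t : Tr) : List (Rf × Rf) := [(t.1, t.2.1), (t.2.1, t.2.2), (t.2.2, t.1)]

/-- Directed edges of a cyclic list. -/
def cyc {β : Type} (L : List β) : List (β × β) := L.zip (L.tail ++ L.take 1)

/-- Cancellation of edges against opposite edges. -/
def cancel : ℕ → List (Rf × Rf) → Bool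
  | 0, L => L.isEmpty
  | n + 1, L => match L with
    | [] => true
    | e :: t => (t.contains (e.2, e.1)) && cancel n (t.erase (e.2, e.1))

/-- Sign of the imaginary part (`1`, `-1`, or `0` if undecided). -/
def sgI {Q : Type} (M : Ops Q) (v : Q) : ℤ :=
  if M.pos M.zero M.one v then 1 else if M.pos M.zero v M.one then -1 else 0

/-- Sign of `det (p, q)`. -/
def sgD {Q : Type} (M : Ops Q) (p q : Q) : ℤ :=
  if M.pos M.zero p q then 1 else if M.pos M.zero q p then -1 else 0

/-- Crossing number of the negative real axis. -/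
def crossz {Q : Type} (M : Ops Q) (p q : Q) : ℤ :=
  if sgI M p = 1 ∧ sgI M q = -1 ∧ sgD M p q = 1 then 1 else
    if sgI M p = -1 ∧ sgI M q = 1 ∧ sgD M p q = -1 then -1 else 0

namespace Cert

variable {Q : Type} (M : Ops Q) (X : Cert Q)

def vz (r : Rf) : Q := M.mul r.2 (X.V.getD r.1 (M.zero, 0)).1

def lz (r : Rf) : ℤ := (X.V.getD r.1 (M.zero, 0)).2 + (r.2 : ℤ)

/-- Shift of the copy `a`. -/
def wz (c : CD) (a : ℕ) : Q := M.sub (X.vz M (c.tr a).1) (X.vz M (c.tr 0).1)

/-- Labels of a tetrahedral cluster. -/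
def LT (c : CD) (m : Fin 4) : ℤ :=
  if m = 0 then X.lz M (c.tr 1).1 else if m = 1 then X.lz M (c.tr 0).1 else
    if m = 2 then X.lz M (c.tr 3).1 else X.lz M (c.tr 2).1

/-- Edge form of the copy `a`, side `s`. -/
def zf (c : CD) (a : ℕ) (s : Fin 3) : ZF Q :=
  match c with
  | .P t => .pure (X.lz M t.1)
  | .W e t0 t1 =>
      let i := X.lz M t0.1
      let j := X.lz M t1.1
      let v := M.sub (X.vz M t1.1) (X.vz M t0.1)
      let b0 := decide (X.lz M (trv t0 s) = i)
      let b1 := decide (X.lz M (trv t0 (s + 1)) = i)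
      if a = 0 then
        (if b0 then (if b1 then .pure i else .wall i j v e)
          else (if b1 then .wall j i v (-e) else .pure j))
      else
        (if b0 then (if b1 then .pure j else .wall j i (M.neg v) (-e))
          else (if b1 then .wall i j (M.neg v) e else .pure i))
  | .T t0 t1 t2 t3 =>
      let c : CD := .T t0 t1 t2 t3
      let a' : Fin 4 := Fin.ofNat 4 a
      .wall (X.LT M c (inv4 s a')) (X.LT M c (inv4 (s + 1) a'))
        (M.sub (X.wz M c (inv4 (s + 2) a').val) (X.wz M c a'.val))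
        (sT a' * sT (inv4 (s + 2) a') * sU (inv4 s a') a' * sU (inv4 s a') (inv4 (s + 2) a'))
  | .E t0 t1 t2 =>
      let c : CD := .E t0 t1 t2
      let i := X.lz M t0.1
      let j := X.lz M t0.2.1
      let a' : Fin 3 := Fin.ofNat 3 a
      if a' = s then .wall i j (M.sub (X.wz M c (s + 1).val) (X.wz M c s.val)) 1
      else if a' = s + 1 then .wall j i (M.sub (X.wz M c s.val) (X.wz M c (s + 1).val)) (-1)
      else .pure j

/-- All copies are translates of the copy `0`, the copy `0` is positively oriented, no copy contains `0`. -/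
def okG (c : CD) : Bool :=
  M.pos (X.vz M (c.tr 0).1) (X.vz M (c.tr 0).2.1) (X.vz M (c.tr 0).2.2) &&
  (List.range c.n).all fun a =>
    M.isz (M.sub (M.sub (X.vz M (c.tr a).2.1) (X.vz M (c.tr 0).2.1)) (X.wz M c a)) &&
    (M.isz (M.sub (M.sub (X.vz M (c.tr a).2.2) (X.vz M (c.tr 0).2.2)) (X.wz M c a)) &&
    (M.pos M.zero (X.vz M (c.tr a).2.1) (X.vz M (c.tr a).1) ||
      (M.pos M.zero (X.vz M (c.tr a).2.2) (X.vz M (c.tr a).2.1) ||
      M.pos M.zero (X.vz M (c.tr a).1) (X.vz M (c.tr a).2.2))))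

/-- The conditions on labels and shifts. -/
def okL (c : CD) : Bool :=
  match c with
  | .P t => decide (X.lz M t.2.1 = X.lz M t.1) && decide (X.lz M t.2.2 = X.lz M t.1)
  | .W e t0 t1 =>
      let i := X.lz M t0.1
      let j := X.lz M t1.1
      let v := M.sub (X.vz M t1.1) (X.vz M t0.1)
      decide (i ≠ j) && (decide (e * e = 1) && (M.nz v &&
      (M.inG i v && (M.inG j v &&
      (decide ((X.lz M t0.2.1 = i ∧ X.lz M t1.2.1 = j) ∨ (X.lz M t0.2.1 = j ∧ X.lz M t1.2.1 = i)) &&
      decide ((X.lz M t0.2.2 = i ∧ X.lz M t1.2.2 = j) ∨ (X.lz M t0.2.2 = j ∧ X.lz M t1.2.2 = i)))))))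
  | .T t0 t1 t2 t3 =>
      let c : CD := .T t0 t1 t2 t3
      decide (∀ a : Fin 4, ∀ s : Fin 3, X.lz M (trv (c.tr a.val) s) = X.LT M c (inv4 s a)) &&
      (decide (∀ a b : Fin 4, a ≠ b → X.LT M c a ≠ X.LT M c b ∧
        M.nz (M.sub (X.wz M c a.val) (X.wz M c b.val)) = true) &&
      decide (∀ a b m : Fin 4, a ≠ m → b ≠ m →
        M.inG (X.LT M c m) (M.sub (X.wz M c b.val) (X.wz M c a.val)) = true))
  | .E t0 t1 t2 =>
      let c : CD := .E t0 t1 t2
      let i := X.lz M t0.1
      let j := X.lz M t0.2.1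
      decide (i ≠ j) &&
      (decide (∀ a s : Fin 3, X.lz M (trv (c.tr a.val) s) = if a = s then i else j) &&
      (decide (∀ a b : Fin 3, a ≠ b → M.nz (M.sub (X.wz M c a.val) (X.wz M c b.val)) = true) &&
      decide (∀ a b : Fin 3, M.inG i (M.sub (X.wz M c b.val) (X.wz M c a.val)) = true ∧
        M.inG j (M.sub (X.wz M c b.val) (X.wz M c a.val)) = true)))

/-- Neighbour record. -/
def nb (c a s : ℕ) : ℕ × ℕ × ℕ × ℤ := ((X.NB.getD c []).getD a []).getD s (0, 0, 0, 0)

def cl (c : ℕ) : CD := X.CS.getD c (.P ((0, 0), (0, 0), (0, 0)))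

/-- Neighbour condition for one side. -/
def okN (c a : ℕ) (s : Fin 3) : Bool :=
  let r := X.nb c a s.val
  let c' := X.cl r.1
  let a' := r.2.1
  let s' : Fin 3 := Fin.ofNat 3 r.2.2.1
  let m := r.2.2.2
  decide (r.1 < X.CS.length) && (decide (a' < c'.n) &&
  (eqr m (trv ((X.cl c).tr a) s) (trv (c'.tr a') (s' + 1)) &&
  (eqr m (trv ((X.cl c).tr a) (s + 1)) (trv (c'.tr a') s') &&
  eqf M m (X.zf M (X.cl c) a s) (X.zf M c' a' s'))))

def chkG : Bool := X.CS.all fun c => X.okG M c && X.okL M c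

def chkN : Bool := (List.range X.CS.length).all fun c => (List.range (X.cl c).n).all fun a =>
  X.okN M c a 0 && (X.okN M c a 1 && X.okN M c a 2)

/-- All directed sides. -/
def darts : List (Rf × Rf) :=
  X.CS.flatMap fun c => (List.range c.n).flatMap fun a => sides (c.tr a)

def chkC : Bool :=
  cancel 4000 (X.darts ++ cyc X.seam ++ (cyc X.seam).map fun e => (sh1 e.2, sh1 e.1))

def chkS : Bool :=
  decide (X.seam ≠ []) && ((cyc X.seam).all (fun e => decide (sgI M (X.vz M e.1) ≠ 0 ∧
      sgD M (X.vz M e.1) (X.vz M e.2) ≠ 0)) &&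
    decide (((cyc X.seam).map (fun e => crossz M (X.vz M e.1) (X.vz M e.2))).sum = 1))

/-- The complete check. -/
def check : Bool := X.chkG M && (X.chkN M && (X.chkC && X.chkS M))

end Cert

end Pool.Agent.Helper56.FM
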