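import Pool.Agent.Helper56.FM.Cert

/-!
# Project FM, part 2: from a checked certificate to an atlas
-/

set_option autoImplicit false

open Set Filter Topology

noncomputable section

namespace Pool.Agent.Helper56.FM

open Pool.Agent.Helper54.TRI

/-- Evaluation of computable edge forms. -/
def ZF.toEF {Q : Type} (e : Q → ℂ) : ZF Q → EF
  | .pure l => .pure l
  | .wall i j v s => .wall i j (e v) (s : ℝ)

namespace Cert

variable {Q : Type} (M : Ops Q) (e : Q → ℂ) (X : Cert Q)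

/-- The point of a vertex reference. -/
def pt (r : Rf) : ℂ := e (X.vz M r)

/-- The triangle of a triple of references. -/
def ptr (t : Tr) (s : Fin 3) : ℂ := X.pt M e (trv t s)

/-- The cluster of cluster data. -/
def clus : CD → Clus
  | .P t => clP (X.ptr M e t) (X.lz M t.1)
  | .W s t0 t1 => clW (X.ptr M e t0) (e (M.sub (X.vz M t1.1) (X.vz M t0.1))) (X.lz M t0.1)
      (X.lz M t1.1) (fun s => decide (X.lz M (trv t0 s) = X.lz M t0.1)) (s : ℝ)
  | .T t0 t1 t2 t3 => clT (X.ptr M e t0) (fun a => e (X.wz M (.T t0 t1 t2 t3) a.val))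
      (X.LT M (.T t0 t1 t2 t3)) sT
  | .E t0 t1 t2 => clE (X.ptr M e t0) (fun a => e (X.wz M (.E t0 t1 t2) a.val))
      (X.lz M t0.1) (X.lz M t0.2.1)

/-- Geometric part of a good cluster. -/
def Good1 (c : CD) : Prop :=
  (X.clus M e c).n = c.n ∧ Pos (X.clus M e c).P ∧
  (∀ (a : Fin (X.clus M e c).n) s, (X.clus M e c).P s + (X.clus M e c).w a = X.ptr M e (c.tr a.val) s) ∧
  ∀ (a : Fin (X.clus M e c).n), (0 : ℂ) ∉ Cls (fun s => (X.clus M e c).P s + (X.clus M e c).w a)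

/-- Algebraic part of a good cluster. -/
def Good2 (Γ : ℤ → ℂ → Prop) (c : CD) : Prop :=
  ClusOK Γ (X.clus M e c) ∧
  (∀ (a : Fin (X.clus M e c).n) s t, 0 ≤ t → t ≤ 1 →
    crow (X.clus M e c) a (ez s t) = ((X.zf M c a.val s).toEF e).row t) ∧
  (∀ (a : Fin (X.clus M e c).n) s,
    crow (X.clus M e c) a (Pi.single s 1) = prow (X.lz M (trv (c.tr a.val) s))) ∧
  ∀ (a : Fin (X.clus M e c).n) s, ((X.zf M c a.val s).toEF e).ok

/-- The clusters of a certificate. -/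
def C (c : Fin X.CS.length) : Clus := X.clus M e (X.cl c.val)

/-- The edge forms. -/
def F (i : Ix (X.C M e)) (s : Fin 3) : EF := (X.zf M (X.cl i.1.val) i.2.val s).toEF e

/-- The vertex labels. -/
def lab (i : Ix (X.C M e)) (s : Fin 3) : ℤ := X.lz M (trv ((X.cl i.1.val).tr i.2.val) s)

end Cert

/-- **GG**.  As `Pool.Agent.Helper54.TRI.m_GG` (file `Pool/Agent/Helper54/TRI/M_GG.lean`): the translations from `okG` (`isz (sub a b)` gives `e a = e b`; for the vertex `0` it is the definition of `wz`; `e (wz c 0) = 0`), positivity from `hM.pos`.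
`0 ∉ Cls`: one of the three tests gives `0 < ht 0 (vertex (s+1)) (vertex s)`, so `ht (P s) (P (s+1)) 0 < 0`. -/
def StGG : Prop := ∀ (Q : Type) (M : Ops Q) (β : ℂ) (e : Q → ℂ) (Γ : ℤ → ℂ → Prop), Sound M β e Γ →
  ∀ (X : Cert Q) (c : CD), X.okG M c = true → X.Good1 M e c

/-- **GP** (hypothesis `hk : StKP`).  As `Pool/Agent/Helper54/TRI/M_GP.lean`. -/
def StGP : Prop := ∀ (Q : Type) (M : Ops Q) (β : ℂ) (e : Q → ℂ) (Γ : ℤ → ℂ → Prop), Sound M β e Γ →
  ∀ (X : Cert Q) (t : Tr), X.okL M (.P t) = true → X.Good2 M e Γ (.P t)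

/-- **GW** (hypothesis `hk : StKW`).  As `Pool/Agent/Helper54/TRI/M_GW.lean` (`v ≠ 0` from `hM.nz`). -/
def StGW : Prop := ∀ (Q : Type) (M : Ops Q) (β : ℂ) (e : Q → ℂ) (Γ : ℤ → ℂ → Prop), Sound M β e Γ →
  ∀ (X : Cert Q) (s : ℤ) (t0 t1 : Tr), X.okL M (.W s t0 t1) = true → X.Good2 M e Γ (.W s t0 t1)

/-- **GT** (hypothesis `hk : StKT`).  As `Pool/Agent/Helper54/TRI/M_GT.lean` (injectivity of `w`: `nz (sub (wz a) (wz b))`). -/
def StGT : Prop := ∀ (Q : Type) (M : Ops Q) (β : ℂ) (e : Q → ℂ) (Γ : ℤ → ℂ → Prop), Sound M β e Γ →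
  ∀ (X : Cert Q) (t0 t1 t2 t3 : Tr), X.okL M (.T t0 t1 t2 t3) = true → X.Good2 M e Γ (.T t0 t1 t2 t3)

/-- **GE** (hypothesis `hk : StKE`).  As `Pool/Agent/Helper54/TRI/M_GE.lean`. -/
def StGE : Prop := ∀ (Q : Type) (M : Ops Q) (β : ℂ) (e : Q → ℂ) (Γ : ℤ → ℂ → Prop), Sound M β e Γ →
  ∀ (X : Cert Q) (t0 t1 t2 : Tr), X.okL M (.E t0 t1 t2) = true → X.Good2 M e Γ (.E t0 t1 t2)

/-- **NB** (neighbours).  As `Pool/Agent/Helper54/TRI/M_NB.lean`.  `eqr m r r' = true` gives `X.pt M e r = β ^ m * X.pt M e r'` (`vz r = mul r.2 ..`, `β ≠ 0`, `zpow_add₀`) and `X.lz M r = X.lz M r' + m`;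
`eqf M m f g = true` gives `f.toEF e = ((g.toEF e).rev).act β m` (cases; for `m < 0` the test says `β^(-m) e v = e v'`). -/
def StNB : Prop := ∀ (Q : Type) (M : Ops Q) (β : ℂ) (e : Q → ℂ) (Γ : ℤ → ℂ → Prop), Sound M β e Γ →
  ∀ X : Cert Q, X.chkN M = true → (∀ c : Fin X.CS.length, X.Good1 M e (X.cl c.val)) →
  ∀ (i : Ix (X.C M e)) (s : Fin 3), ∃ (j : Ix (X.C M e)) (t : Fin 3) (m : ℤ),
    TT (X.C M e) i s = β ^ m * TT (X.C M e) j (t + 1) ∧ TT (X.C M e) i (s + 1) = β ^ m * TT (X.C M e) j t ∧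
    X.F M e i s = ((X.F M e j t).rev).act β m ∧
    X.lab M e i s = X.lab M e j (t + 1) + m ∧ X.lab M e i (s + 1) = X.lab M e j t + m

/-- **CH** (chain identity).  As `Pool/Agent/Helper54/TRI/M_CH.lean` (`X.pt M e (sh1 r) = β * X.pt M e r`). -/
def StCH : Prop := ∀ (Q : Type) (M : Ops Q) (β : ℂ) (e : Q → ℂ) (Γ : ℤ → ℂ → Prop), Sound M β e Γ →
  ∀ X : Cert Q, X.chkC = true → (∀ c : Fin X.CS.length, X.Good1 M e (X.cl c.val)) →
  ∀ g : ℂ → ℂ → ℝ, (∀ (i : Ix (X.C M e)) (s : Fin 3), g (TT (X.C M e) i (s + 1)) (TT (X.C M e) i s) = - g (TT (X.C M e) i s) (TT (X.C M e) i (s + 1))) →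
    (∀ a ∈ (cyc X.seam).map (fun a => (X.pt M e a.1, X.pt M e a.2)), g a.2 a.1 = - g a.1 a.2) →
    (∀ a ∈ (cyc X.seam).map (fun a => (X.pt M e a.1, X.pt M e a.2)),
      g (β * a.2) (β * a.1) = - g (β * a.1) (β * a.2)) →
    ∑ i : Ix (X.C M e), ∑ s : Fin 3, g (TT (X.C M e) i s) (TT (X.C M e) i (s + 1)) =
      (((cyc X.seam).map (fun a => (X.pt M e a.1, X.pt M e a.2))).map
        (fun a => g (β * a.1) (β * a.2) - g a.1 a.2)).sum

/-- **WI** (winding number of the seam).  As `Pool/Agent/Helper54/TRI/M_WI.lean` (`e M.one = c > 0`: `ht 0 c z = Im z / c`). -/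
def StWI : Prop := ∀ (Q : Type) (M : Ops Q) (β : ℂ) (e : Q → ℂ) (Γ : ℤ → ℂ → Prop), Sound M β e Γ →
  ∀ X : Cert Q, X.chkS M = true →
  (∀ a ∈ (cyc X.seam).map (fun a => (X.pt M e a.1, X.pt M e a.2)), a.1 ≠ 0 ∧ a.2 / a.1 ∈ Complex.slitPlane) ∧
  (((cyc X.seam).map (fun a => (X.pt M e a.1, X.pt M e a.2))).map (fun a => Complex.arg (a.2 / a.1))).sum =
    2 * Real.pi

/-- **VL** (labels of vertices, any tiling; hypotheses `hT : StTG`, `h1 : StCF1`, `h2 : StCF2`, `h3 : StCF3`).  PROOF.  Write `(j, m)` for the closed triangle `{y | β^(-m) y ∈ Cls (T j)}`.  Let `x₀ = T i s = β^k T i' s'`; `x₀ ≠ 0` (`Tiling.zero`, the vertices are in `Cls`).  The set `A` of the pairs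
`(j, m)` with `β^(-m) x₀ ∈ Cls (T j)` is finite (`h3`), and for each of them there is a vertex `t` with `β^(-m) x₀ = T j t` (`h2` (2), applied to `x₀` and `(i, s, 0)`), unique by injectivity (`hT`); put `L (j,m) = lab j t + m`.  So `(i, 0)`, `(i', k)` are in `A` with
`L (i,0) = lab i s`, `L (i',k) = lab i' s' + k`.  Choose `r > 0` such that (a) points `y` with `dist y x₀ ≤ r` are only in triangles of `A` (`h1` (1)); (b) for all `(j,m) ∈ A` with vertex `t` at `x₀`: `r` is smaller than the distance of `x₀` to the compact set `β^m segment (T j (t+1)) (T j (t+2))`, which does not contain `x₀`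
(on the segment the height over the side `t+1` is `0`, at the vertex `t` it is positive).  Let `S = Metric.sphere x₀ r`, a preconnected set (`isPreconnected_sphere`, `Complex.rank_real_complex`).  Let `c = lab i s`, `B = ⋃ {(j,m) ∈ A, L = c}`, `B' = ⋃ {(j,m) ∈ A, L ≠ c}`, closed sets (finite unions of preimages of compact sets) which cover `S` (`h1` (2) and (a); `y ≠ 0` for small `r`,
also put this in the choice of `r`: `r < ‖x₀‖`).  They do not meet on `S`: let `y ∈ S` be in `a = (j,m) ∈ A` and in `a' ∈ A`, `L a = c ≠ L a'`.  By the trichotomy of `hT`: if `β^(-m) y ∈ Opn (T j)`, then `a' = a` by `h1` (3).  If `β^(-m) y` is a vertex of `T j`, it is not the vertex `t` (`y ≠ x₀`), so it is in the closed side `t+1`, excluded by (b).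
If it is in an open side `u`, then `u ≠ t + 1` by (b), and by `h2` (1) `a' = a` or `a'` is the neighbour `(j', m + μ)`, `nb j u = (j', t', μ)`.  In the second case: `u = t`: `β^(-m) x₀ = T j t = β^μ T j' (t'+1)`, so the vertex of `a'` at `x₀` is `t'+1` and `L a' = lab j' (t'+1) + m + μ = lab j t + m = L a` by `l1`; `u = t + 2`: `T j t = T j (u+1) = β^μ T j' t'`,
`L a' = lab j' t' + m + μ = lab j (u+1) + m = L a` by `l2`; contradiction.  `S ∩ B` is nonempty: the triangle `(i, 0)` has the vertex `x₀` and contains the segment to another vertex, of length `> r`.  By `isPreconnected_closed_iff`, `S ∩ B' = ∅`.  But `(i', k)` contains a point of `S` for the same reason, so `L (i',k) = c`. -/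
def StVL : Prop := ∀ (ι : Type) [Fintype ι] (T : ι → Fin 3 → ℂ) (β : ℂ) (nb : ι → Fin 3 → ι × Fin 3 × ℤ),
  Tiling ι T β nb → ∀ lab : ι → Fin 3 → ℤ,
  (∀ i s, lab i s = lab (nb i s).1 ((nb i s).2.1 + 1) + (nb i s).2.2) →
  (∀ i s, lab i (s + 1) = lab (nb i s).1 (nb i s).2.1 + (nb i s).2.2) →
  ∀ i s i' s' (k : ℤ), T i s = β ^ k * T i' s' → lab i s = lab i' s' + k

/-- **TL** (as in TRI). -/
def StTL : Prop := ∀ (ι : Type) [Fintype ι] (T : ι → Fin 3 → ℂ) (β : ℂ) (nb : ι → Fin 3 → ι × Fin 3 × ℤ) (c : List (ℂ × ℂ)),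
  1 < ‖β‖ → (∀ i, Pos (T i)) → (∀ i, (0 : ℂ) ∉ Cls (T i)) →
  (∀ i s, T i s = β ^ (nb i s).2.2 * T (nb i s).1 ((nb i s).2.1 + 1)) →
  (∀ i s, T i (s + 1) = β ^ (nb i s).2.2 * T (nb i s).1 (nb i s).2.1) →
  (∀ g : ℂ → ℂ → ℝ, (∀ i s, g (T i (s + 1)) (T i s) = - g (T i s) (T i (s + 1))) →
    (∀ e ∈ c, g e.2 e.1 = - g e.1 e.2) → (∀ e ∈ c, g (β * e.2) (β * e.1) = - g (β * e.1) (β * e.2)) →
    ∑ i, ∑ s : Fin 3, g (T i s) (T i (s + 1)) =
      (c.map (fun e => g (β * e.1) (β * e.2) - g e.1 e.2)).sum) →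
  (∀ e ∈ c, e.1 ≠ 0 ∧ e.2 / e.1 ∈ Complex.slitPlane) → (∀ e ∈ c, e.1 ≠ e.2) →
  (c.map (fun e => Complex.arg (e.2 / e.1))).sum = 2 * Real.pi →
  Tiling ι T β nb

/-- **AT** (the atlas of a certificate; all the statements above as hypotheses).  As `Pool/Agent/Helper54/TRI/M_AT.lean`; `vlab` by `StVL`. -/
def StAT : Prop := ∀ (Q : Type) (M : Ops Q) (β : ℂ) (e : Q → ℂ) (Γ : ℤ → ℂ → Prop), Sound M β e Γ →
  ∀ X : Cert Q, X.check M = true →
  ∃ nb : Ix (X.C M e) → Fin 3 → Ix (X.C M e) × Fin 3 × ℤ,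
    Atlas (X.C M e) β Γ nb (X.F M e) (X.lab M e)

end Pool.Agent.Helper56.FM
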