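import Pool.Agent.Helper56.FM.Po
import Pool.Agent.Helper56.FM.St
import Pool.Agent.Helper54.TRI.St5

/-!
# Project FM, part 3: the family `β³ + β² + β = s`, `s` rational
-/

set_option autoImplicit false

open Set Filter Topology Matrix
open Pool.Agent.Helper54.Wav

noncomputable section

namespace Pool.Agent.Helper56.FM

open Pool.Agent.Helper54.TRI

/-- Points `h.1 β + h.2.1 (β² + β) + h.2.2 s` with polynomials in `s`. -/
abbrev PQ : Type := Po × Po × Po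

/-- Multiplication by `β`. -/
def pB (h : PQ) : PQ := (psub (0 :: h.2.2) (padd h.1 h.2.1), h.1, h.2.1)

/-- Multiplication by `s β⁻¹`. -/
def pA (h : PQ) : PQ := (0 :: h.2.1, 0 :: h.2.2, padd h.1 (padd h.2.1 h.2.2))

def pBn : ℕ → PQ → PQ
  | 0, h => h
  | n + 1, h => pB (pBn n h)

def pAn : ℕ → PQ → PQ
  | 0, h => h
  | n + 1, h => pA (pAn n h)

def qsub (u v : PQ) : PQ := (psub u.1 v.1, psub u.2.1 v.2.1, psub u.2.2 v.2.2)

def qneg (u : PQ) : PQ := (pneg u.1, pneg u.2.1, pneg u.2.2)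

/-- `s = r + r² + r³`. -/
def pS : Po := [0, 1, 1, 1]

/-- `det (u, v) / (Im β (r² + r + 1))` as a polynomial in `r` (`β` is a root of `x³ + x² + x = s`). -/
def pdet (u v : PQ) : Po :=
  padd (pcomp (psub (pmul u.1 v.2.1) (pmul u.2.1 v.1)) pS)
    (padd (0 :: pneg (pcomp (psub (pmul u.1 v.2.2) (pmul u.2.2 v.1)) pS))
      (0 :: 0 :: pcomp (psub (pmul u.2.1 v.2.2) (pmul u.2.2 v.2.1)) pS))

/-- Orientation test on the intervals `|N r - c| ≤ 1`, `c ∈ cs` (for the root `β` in the lower half plane). -/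
def qpos (cs : List ℤ) (N : ℤ) (p q r : PQ) : Bool := posP cs N (pdet (qsub r p) (qsub q p))

/-- The operations of the family. -/
def famOps (cs : List ℤ) (N : ℤ) : Ops PQ where
  zero := ([], [], [])
  one := ([], [], [1])
  sub := qsub
  neg := qneg
  mul := pBn
  isz u := pz u.1 && (pz u.2.1 && pz u.2.2)
  nz v := qpos cs N ([], [], []) ([], [], [1]) v || (qpos cs N ([], [], []) v ([], [], [1]) ||
    (qpos cs N ([], [], []) ([1], [], []) v || qpos cs N ([], [], []) v ([1], [], [])))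
  pos := qpos cs N
  inG l v := if 1 ≤ l then pz (pAn (l - 1).toNat v).2.1 else pz (pBn (1 - l).toNat v).2.1

/-- `s` rational, `r` the real root of `x³ + x² + x = s`, `β` the root in the upper half plane. -/
structure Fam (s : ℚ) (r : ℝ) (β : ℂ) : Prop where
  pos : 0 < r
  real : r ^ 3 + r ^ 2 + r = (s : ℝ)
  cub : β ^ 3 + β ^ 2 + β = (s : ℂ)
  im : 0 < β.im

/-- Evaluation of points. -/
def ev (s : ℚ) (β : ℂ) (h : PQ) : ℂ :=
  pev h.1 (s : ℂ) * β + pev h.2.1 (s : ℂ) * (β ^ 2 + β) + pev h.2.2 (s : ℂ) * (s : ℂ)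

/-- `u ∈ β^l (ℚ + ℚ β⁻¹)`. -/
def Gq (β : ℂ) (l : ℤ) (u : ℂ) : Prop :=
  ∃ x y : ℚ, u = β ^ l * ((x : ℂ) + (y : ℂ) * β⁻¹)

/-- **RF** (roots).  PROOF.  `0 = (β³+β²+β) - (r³+r²+r) = (β - r)(β² + (1+r) β + (r²+r+1))` and `β ≠ r`, so `β² = -(1+r) β - (r²+r+1)`; compare with `β² = 2 Re β β - |β|²` (imaginary part, then real part).  Existence for `s > 0`: `r` by the intermediate value theorem on `[0, s]`,
`β = -(1+r)/2 + i sqrt (r²+r+1 - (1+r)²/4)` (`r²+r+1 > (1+r)²/4`); monotonicity of `x³+x²+x` for `x ≥ 0` gives the bounds of `r`. -/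
def StRF : Prop := (∀ s r β, Fam s r β → 2 * β.re = -(1 + r) ∧ Complex.normSq β = r ^ 2 + r + 1 ∧
    1 < ‖β‖ ∧ β ^ 2 = -(1 + (r : ℂ)) * β - ((r : ℂ) ^ 2 + r + 1)) ∧
  (∀ s : ℚ, 0 < s → ∃ r β, Fam s r β) ∧
  ∀ s r β, Fam s r β → 7 / 8 ≤ s → s ≤ 3 / 2 → 1 / 2 ≤ r ∧ r ≤ 7 / 10

/-- **SND** (the operations are correct for the root in the lower half plane; hypothesis `hr : StRF`). -/
def StSND : Prop := ∀ (cs : List ℤ) (N : ℤ) (s : ℚ) (r : ℝ) (β : ℂ), 0 < N → Fam s r β →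
  (∃ c ∈ cs, |(N : ℝ) * r - c| ≤ 1) → Sound (famOps cs N) (starRingEnd ℂ β)
    (ev s (starRingEnd ℂ β)) (Gq (starRingEnd ℂ β))

/-- **LQ** (rational lattices; hypothesis `hl : StLAT`, proved in `Pool/Agent/Helper54/TRI/M_LAT.lean`).  PROOF.  Let `N ≥ 1` be a common denominator of all rational numbers `x, y` which occur in (chosen) representations `u = x + y β⁻¹` of the elements `u ∈ Λ` (`Gq β 0 u`).
Apply `hl` with `α = β⁻¹`, `D = 1` (`Complex.normSq α⁻¹ = Complex.normSq β`): `φ₀`, and put `φ x = N⁻¹ * φ₀ x`.  For `u ∈ Λ`: `N u = m + n β⁻¹` with integers, so `Gam α 1 0 (N u)` and `N u = φ₀ (zv k)`, `u = φ (zv k)`. -/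
def StLQ : Prop := ∀ (β : ℂ) (B : Matrix (Fin 2) (Fin 2) ℝ) (p q : Fin 2 → ℤ),
  β.im ≠ 0 → B.trace = 2 * β.re → B.det = Complex.normSq β → q ≠ 0 → zv p = B *ᵥ zv q →
  ∀ Λ : Finset ℂ, (∀ u ∈ Λ, Gq β 0 u) →
  ∃ φ : (Fin 2 → ℝ) →ₗ[ℝ] ℂ, Function.Injective φ ∧ (∀ x, φ (B *ᵥ x) = β * φ x) ∧
    ∀ u ∈ Λ, ∃ m : Fin 2 → ℤ, u = φ (zv m)

/-- **CP** (trace and determinant; hypothesis `hr : StRF`).  As `Pool/Agent/Helper54/TRI/M_CHP.lean` (there `s = 1`).  PROOF.  Entries `a b c d` of `A`, `T = a + d`, `D = ad - bc`, `K = T² - D + T + 1`: the entries of `A³ + A² + A = s` give `b K = 0`, `c K = 0`, `a K = d K = T D + D + s`.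
If `K = 0`: `D = T² + T + 1` and `T D + D + s = 0`, that is `T³ + 2T² + 2T + 1 + s = 0`; with `x = -(1+T)` this is `x³ + x² + x = s`, so `x = r` (`x³+x²+x` is injective on `ℝ`), `T = -(1+r) = 2 Re β`, `D = r²+r+1 = |β|²`.
If `K ≠ 0`: `b = c = 0`, `a = d`, `a³+a²+a = s`, so `a = r`, but `a` is an eigenvalue, `|a| > 1`, and `r < 1` because `r³+r²+r = s < 3`. -/
def StCP : Prop := ∀ s r β, Fam s r β → s < 3 → ∀ A : Matrix (Fin 2) (Fin 2) ℝ, Wav.Expansive A →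
  A ^ 3 + A ^ 2 + A = (s : ℝ) • (1 : Matrix (Fin 2) (Fin 2) ℝ) →
  A.trace = 2 * β.re ∧ A.det = Complex.normSq β

/-- **NR** (no rational powers; hypothesis `hr : StRF`).  PROOF.  `f = X³ + X² + X - C s` is monic of degree `3` without a rational root, so irreducible (`Polynomial.irreducible_iff_roots_eq_zero_of_degree_le_three`), so `f` is the minimal polynomial over `ℚ` of `β` and of `r`.  If `β^n = u` or `r^n = u` with `u` rational, then `f` divides `X^n - C u`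
(`minpoly.dvd`), so both `β^n = u` and `r^n = u` (as complex numbers), so `|β|^n = r^n`, `|β| = r`; but `|β|² = r² + r + 1 > r²`. -/
def StNR : Prop := ∀ s r β, Fam s r β → (∀ x : ℚ, x ^ 3 + x ^ 2 + x ≠ s) →
  ∀ n : ℕ, n ≠ 0 → ∀ u : ℚ, β ^ n ≠ (u : ℂ) ∧ r ^ n ≠ (u : ℝ)

/-- **NP** (no rational power of the matrix; hypotheses `hr : StRF`, `hn : StNR`).  PROOF.  `A ^ p = M` rational, `p ≥ 1`: `|β|^(2p) = det M` is rational (as in `Pool/Agent/Helper54/TRI/M_NRP.lean`), `r |β|² = r (r²+r+1) = s`, so `r^p det M = s^p`, `r^p` is rational (`det M ≠ 0`), contradiction to `hn`. -/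
def StNP : Prop := ∀ s r β, Fam s r β → (∀ x : ℚ, x ^ 3 + x ^ 2 + x ≠ s) →
  ∀ A : Matrix (Fin 2) (Fin 2) ℝ, A.det = Complex.normSq β →
  ¬ Pool.Agent.Helper54.WavS.HasRationalPower A

/-- **JJ** (from any exponent to the exponent one, any cubic number).  As `Pool/Agent/Helper54/TRI/M_J1.lean` (there `α = β⁻¹` is a root of `x³ = x² + x + 1`): instead of `pow_ne_J1` use `hnr` (if `v β^n = u` with integers `v ≠ 0`, `u`, then `β^n = u / v` is rational; in `m_J1` the relation is written with `α^n = (β^n)⁻¹`,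
`β^n (q i) = p i` is the same); `dep_J1` for the field `ℚ(β)` of degree `≤ 3` (`β` is a root of the monic polynomial `X³ - a X² - b X - c`). -/
def StJJ : Prop := ∀ β : ℂ, β.im ≠ 0 → (∃ a b c : ℚ, β ^ 3 = (a : ℂ) * β ^ 2 + (b : ℂ) * β + (c : ℂ)) →
  (∀ n : ℕ, n ≠ 0 → ∀ u : ℚ, β ^ n ≠ (u : ℂ)) →
  ∀ A : Matrix (Fin 2) (Fin 2) ℝ, A.trace = 2 * β.re → A.det = Complex.normSq β →
  (∃ j : ℤ, j ≠ 0 ∧ j ∈ WavN.Exps A) → ∃ p q : Fin 2 → ℤ, q ≠ 0 ∧ zv p = Aᵀ *ᵥ zv q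

/-- **EX** (explicit matrices; hypothesis `hr : StRF`).  As `Pool/Agent/Helper54/TRI/M_EXM.lean`.  PROOF.  `A = !![-(1+r), -(r²+r+1); 1, 0]` has the characteristic polynomial `X² + (1+r) X + (r²+r+1)` with roots of modulus `sqrt (r²+r+1) > 1` (discriminant `(1+r)² - 4 (r²+r+1) < 0`), `A² = -(1+r) A - (r²+r+1)` and
`A³ + A² + A = r³+r²+r = s`.  `Aᵀ *ᵥ (0,1) = (1,0)`. -/
def StEX : Prop := ∀ s r β, Fam s r β →
  Wav.Expansive (!![-(1 + r), -(r ^ 2 + r + 1); 1, 0] : Matrix (Fin 2) (Fin 2) ℝ) ∧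
  (!![-(1 + r), -(r ^ 2 + r + 1); 1, 0] : Matrix (Fin 2) (Fin 2) ℝ) ^ 3 +
    !![-(1 + r), -(r ^ 2 + r + 1); 1, 0] ^ 2 + !![-(1 + r), -(r ^ 2 + r + 1); 1, 0] =
      (s : ℝ) • (1 : Matrix (Fin 2) (Fin 2) ℝ) ∧
  ∃ p q : Fin 2 → ℤ, q ≠ 0 ∧
    zv p = (!![-(1 + r), -(r ^ 2 + r + 1); 1, 0] : Matrix (Fin 2) (Fin 2) ℝ)ᵀ *ᵥ zv q

end Pool.Agent.Helper56.FM
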