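import Pool.Agent.Helper56.FM.All

/-!
# Project FM: the theorem for a covered interval of the family
-/

set_option autoImplicit false

open Set Filter Topology Matrix
open Pool.Agent.Helper54.Wav

noncomputable section

namespace Pool.Agent.Helper56.FM

open Pool.Agent.Helper54.TRI

/-- Trace and determinant, or a scalar matrix (no restriction on `s`). -/
theorem trdet_or {s : ℚ} {r : ℝ} {β : ℂ} (hF : Fam s r β) {A : Matrix (Fin 2) (Fin 2) ℝ}
    (hA : A ^ 3 + A ^ 2 + A = (s : ℝ) • (1 : Matrix (Fin 2) (Fin 2) ℝ)) :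
    (A.trace = 2 * β.re ∧ A.det = Complex.normSq β) ∨ A = r • (1 : Matrix (Fin 2) (Fin 2) ℝ) := by
  obtain ⟨h1, h2, -, -⟩ := m_RF.1 s r β hF
  rw [h1, h2]
  have hr := hF.real
  -- injectivity of `x³ + x² + x`
  have hinj : ∀ x : ℝ, x ^ 3 + x ^ 2 + x = (s : ℝ) → x = r := by
    intro x hx
    have h3 : (x - r) * ((x + (r + 1) / 2) ^ 2 + (3 / 4 * (r + 1 / 3) ^ 2 + 2 / 3)) = 0 := by
      rw [← hr] at hx
      linear_combination hx
    rcases mul_eq_zero.1 h3 with h | h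
    · linarith
    · exfalso
      nlinarith [sq_nonneg (x + (r + 1) / 2), sq_nonneg (r + 1 / 3)]
  obtain ⟨a, ha⟩ : ∃ a : ℝ, a = A 0 0 := ⟨_, rfl⟩
  obtain ⟨b, hb⟩ : ∃ b : ℝ, b = A 0 1 := ⟨_, rfl⟩
  obtain ⟨c, hc⟩ : ∃ c : ℝ, c = A 1 0 := ⟨_, rfl⟩
  obtain ⟨d, hd⟩ : ∃ d : ℝ, d = A 1 1 := ⟨_, rfl⟩
  have hT : A.trace = a + d := by rw [Matrix.trace_fin_two, ha, hd]
  have hD : A.det = a * d - b * c := by rw [Matrix.det_fin_two, ha, hb, hc, hd]
  have e00 := congrFun (congrFun hA 0) 0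
  have e01 := congrFun (congrFun hA 0) 1
  have e10 := congrFun (congrFun hA 1) 0
  have e11 := congrFun (congrFun hA 1) 1
  simp only [pow_succ, pow_zero, one_mul, Matrix.add_apply, Matrix.mul_apply, Fin.sum_univ_two,
    Matrix.smul_apply, Matrix.one_apply_eq, smul_eq_mul, mul_one, ← ha, ← hb, ← hc, ← hd]
    at e00 e01 e10 e11
  rw [Matrix.one_apply_ne (by decide), mul_zero] at e01 e10
  have f01 : b * ((a + d) ^ 2 - (a * d - b * c) + (a + d) + 1) = 0 := by linarith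
  have f10 : c * ((a + d) ^ 2 - (a * d - b * c) + (a + d) + 1) = 0 := by linarith
  have f00 : a * ((a + d) ^ 2 - (a * d - b * c) + (a + d) + 1) =
      (a + d) * (a * d - b * c) + (a * d - b * c) + s := by linarith
  have f11 : d * ((a + d) ^ 2 - (a * d - b * c) + (a + d) + 1) =
      (a + d) * (a * d - b * c) + (a * d - b * c) + s := by linarith
  by_cases hK : (a + d) ^ 2 - (a * d - b * c) + (a + d) + 1 = 0
  · left
    rw [hK, mul_zero] at f00
    have h4 : a * d - b * c = (a + d) ^ 2 + (a + d) + 1 := by linarith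
    rw [h4] at f00
    have h5 : -(1 + (a + d)) = r := by
      apply hinj
      linarith
    rw [hT, hD, h4]
    have h6 : a + d = -(1 + r) := by linarith
    rw [h6]
    constructor
    · rfl
    · ring
  · right
    have hb0 : b = 0 := (mul_eq_zero.1 f01).resolve_right hK
    have hc0 : c = 0 := (mul_eq_zero.1 f10).resolve_right hK
    have had : a = d := by
      have h7 : (a - d) * ((a + d) ^ 2 - (a * d - b * c) + (a + d) + 1) = 0 := by linarith
      have := (mul_eq_zero.1 h7).resolve_right hK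
      linarith
    have har : a = r := by
      apply hinj
      rw [hb0, hc0] at e00
      linarith
    ext i j
    fin_cases i <;> fin_cases j
    · show A 0 0 = _
      rw [← ha, har]; simp
    · show A 0 1 = _
      rw [← hb, hb0]; simp
    · show A 1 0 = _
      rw [← hc, hc0]; simp
    · show A 1 1 = _
      rw [← hd, ← had, har]; simp

/-- A scalar matrix `r` with irrational powers has no rational power. -/
theorem scalar_nrp {s : ℚ} {r : ℝ} {β : ℂ} (hF : Fam s r β) (hirr : ∀ x : ℚ, x ^ 3 + x ^ 2 + x ≠ s) :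
    ¬ Pool.Agent.Helper54.WavS.HasRationalPower (r • (1 : Matrix (Fin 2) (Fin 2) ℝ)) := by
  rintro ⟨p, M, hp, hM⟩
  have h1 := congrFun (congrFun hM 0) 0
  rw [smul_pow, one_pow, Matrix.smul_apply, Matrix.one_apply_eq, smul_eq_mul, mul_one] at h1
  exact (m_NR m_RF s r β hF hirr p (by omega) (M 0 0)).2 (by rw [h1]; simp)

/-- A scalar matrix `r` with irrational powers has no exponent. -/
theorem scalar_exps {s : ℚ} {r : ℝ} {β : ℂ} (hF : Fam s r β) (hirr : ∀ x : ℚ, x ^ 3 + x ^ 2 + x ≠ s)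
    (j : ℤ) (hj : j ≠ 0) : j ∉ WavN.Exps (r • (1 : Matrix (Fin 2) (Fin 2) ℝ)) := by
  have hr0 : r ≠ 0 := hF.pos.ne'
  have key : ∀ n : ℕ, n ≠ 0 → ∀ (a b : ℤ), b ≠ 0 → r ^ n * (b : ℝ) ≠ a := by
    intro n hn a b hb h
    refine (m_NR m_RF s r β hF hirr n hn ((a : ℚ) / b)).2 ?_
    push_cast
    rw [eq_div_iff (by exact_mod_cast hb)]
    exact h
  rintro ⟨x, hx, ⟨p, hp⟩, ⟨q, hq⟩⟩
  have hpow : ∀ k : ℤ, ((r • (1 : Matrix (Fin 2) (Fin 2) ℝ))ᵀ) ^ k =
      (r ^ k) • (1 : Matrix (Fin 2) (Fin 2) ℝ) := by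
    intro k
    rw [Matrix.transpose_smul, Matrix.transpose_one]
    have hnat : ∀ n : ℕ, (r • (1 : Matrix (Fin 2) (Fin 2) ℝ)) ^ n =
        (r ^ n) • (1 : Matrix (Fin 2) (Fin 2) ℝ) := by
      intro n
      rw [smul_pow, one_pow]
    cases k with
    | ofNat n =>
      rw [Int.ofNat_eq_natCast, zpow_natCast, zpow_natCast]
      exact hnat n
    | negSucc n =>
      rw [zpow_negSucc, zpow_negSucc, hnat]
      have h3 : (r ^ (n + 1)) ≠ 0 := pow_ne_zero _ hr0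
      apply Matrix.inv_eq_left_inv
      rw [smul_mul_smul_comm, inv_mul_cancel₀ h3, one_mul, one_smul]
  have hp' : zv p = x.ofLp := by
    have h : ((r • (1 : Matrix (Fin 2) (Fin 2) ℝ))ᵀ ^ (0 : ℤ)) *ᵥ zv p = x.ofLp :=
      congrArg (fun y : Wav.E 2 => y.ofLp) hp
    rwa [zpow_zero, Matrix.one_mulVec] at h
  have hq' : ((r • (1 : Matrix (Fin 2) (Fin 2) ℝ))ᵀ ^ j) *ᵥ zv q = x.ofLp :=
    congrArg (fun y : Wav.E 2 => y.ofLp) hq
  rw [hpow, Matrix.smul_mulVec, Matrix.one_mulVec] at hq'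
  have hx' : x.ofLp ≠ 0 := fun h => hx (by
    have : x = WithLp.toLp 2 x.ofLp := rfl
    rw [this, h]; rfl)
  obtain ⟨i, hi⟩ : ∃ i, x.ofLp i ≠ 0 := by
    by_contra hcon
    push Not at hcon
    exact hx' (funext hcon)
  have e1 : (p i : ℝ) = x.ofLp i := congrFun hp' i
  have e2 : r ^ j * (q i : ℝ) = x.ofLp i := by
    have := congrFun hq' i
    simpa [zv] using this
  have hpi : p i ≠ 0 := by
    intro h0
    rw [h0] at e1
    apply hi
    rw [← e1]
    simp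
  have hqi : q i ≠ 0 := by
    intro h0
    rw [h0] at e2
    apply hi
    rw [← e2]
    simp
  cases j with
  | ofNat n =>
    rw [Int.ofNat_eq_natCast, zpow_natCast] at e2
    exact key n (by rintro rfl; exact hj rfl) (p i) (q i) hqi (by rw [e2, e1])
  | negSucc n =>
    rw [zpow_negSucc] at e2
    refine key (n + 1) (by omega) (q i) (p i) hpi ?_
    rw [e1, ← e2, ← mul_assoc, mul_inv_cancel₀ (pow_ne_zero _ hr0), one_mul]

/-- The theorem for one `s`. -/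
theorem fin_fam {s : ℚ} (hs : 0 < s) (hirr : ∀ x : ℚ, x ^ 3 + x ^ 2 + x ≠ s) (hcov : Covered s) :
    (∀ A : Matrix (Fin 2) (Fin 2) ℝ, _root_.Wav.Expansive A →
      A ^ 3 + A ^ 2 + A = (s : ℝ) • (1 : Matrix (Fin 2) (Fin 2) ℝ) →
      ¬ Pool.Agent.Helper54.WavS.HasRationalPower A ∧
      ((∃ N : ℝ, 2 < N ∧ WavN.HasWavelet N A) ↔ ∃ j : ℤ, j ≠ 0 ∧ j ∈ WavN.Exps A) ∧
      ((∃ j : ℤ, j ≠ 0 ∧ j ∈ WavN.Exps A) →
        (1 : ℤ) ∈ WavN.Exps A ∧ Pool.Agent.Helper54.WavS.HasSchwartzWavelet A)) ∧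
    ∃ A : Matrix (Fin 2) (Fin 2) ℝ, _root_.Wav.Expansive A ∧
      A ^ 3 + A ^ 2 + A = (s : ℝ) • (1 : Matrix (Fin 2) (Fin 2) ℝ) ∧
      (1 : ℤ) ∈ WavN.Exps A ∧ Pool.Agent.Helper54.WavS.HasSchwartzWavelet A := by
  obtain ⟨r, β, hF⟩ := m_RF.2.1 s hs
  have hJ : ∀ A : Matrix (Fin 2) (Fin 2) ℝ, _root_.Wav.Expansive A →
      A ^ 3 + A ^ 2 + A = (s : ℝ) • (1 : Matrix (Fin 2) (Fin 2) ℝ) →
      (∃ j : ℤ, j ≠ 0 ∧ j ∈ WavN.Exps A) →
        (1 : ℤ) ∈ WavN.Exps A ∧ Pool.Agent.Helper54.WavS.HasSchwartzWavelet A := by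
    intro A hE h3 hj
    rcases trdet_or hF h3 with ⟨htr, hdet⟩ | hsc
    · have hcub : ∃ a b c : ℚ, β ^ 3 = (a : ℂ) * β ^ 2 + (b : ℂ) * β + (c : ℂ) := by
        refine ⟨-1, -1, s, ?_⟩
        push_cast
        linear_combination hF.cub
      obtain ⟨p, q, hq, hpq⟩ := m_JJ β hF.im.ne' hcub
        (fun n hn u => (m_NR m_RF s r β hF hirr n hn u).1) A htr hdet hj
      exact ⟨one_mem_exps (_root_.Wav.expansive_det hE) hq hpq,
        wavelet_of_cov hF hcov htr hdet ⟨p, q, hq, hpq⟩⟩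
    · obtain ⟨j, hj0, hj1⟩ := hj
      rw [hsc] at hj1
      exact absurd hj1 (scalar_exps hF hirr j hj0)
  refine ⟨?_, ?_⟩
  · intro A hE h3
    have hnr : ¬ Pool.Agent.Helper54.WavS.HasRationalPower A := by
      rcases trdet_or hF h3 with ⟨htr, hdet⟩ | hsc
      · exact m_NP m_RF (m_NR m_RF) s r β hF hirr A hdet
      · rw [hsc]
        exact scalar_nrp hF hirr
    refine ⟨hnr, ⟨?_, ?_⟩, hJ A hE h3⟩
    · rintro ⟨N, hN, hW⟩
      by_contra hcon
      have hcl := WavN.exps_closure (le_refl 2) hE hN hW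
      have h0 : AddSubgroup.closure (WavN.Exps A) ≤ ⊥ := by
        rw [AddSubgroup.closure_le]
        intro j hj
        by_contra hj0
        exact hcon ⟨j, fun h => hj0 (by simp [h]), hj⟩
      rw [hcl] at h0
      have h1 : (1 : ℤ) ∈ (⊥ : AddSubgroup ℤ) := h0 (AddSubgroup.mem_top 1)
      rw [AddSubgroup.mem_bot] at h1
      exact one_ne_zero h1
    · intro hj
      exact ⟨3, by norm_num, (hJ A hE h3 hj).2.hasWavelet _⟩
  · obtain ⟨hE, h3, p, q, hq, hpq⟩ := m_EX m_RF s r β hF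
    have hE' := hE
    have h1 := one_mem_exps (_root_.Wav.expansive_det hE') hq hpq
    exact ⟨_, hE', h3, h1, (hJ _ hE' h3 ⟨1, one_ne_zero, h1⟩).2⟩

end Pool.Agent.Helper56.FM
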