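import Pool.Agent.Helper56.FM.St

/-! Project FM, module AT: the atlas of a certificate. -/

set_option autoImplicit false

open Set Filter Topology

noncomputable section

namespace Pool.Agent.Helper56.FM

open Pool.Agent.Helper54.TRI

variable {Q : Type} {M : Ops Q} {β : ℂ} {e : Q → ℂ} {Γ : ℤ → ℂ → Prop}

theorem cl_mem (X : Cert Q) (c : Fin X.CS.length) : X.cl c.val ∈ X.CS := by
  unfold Cert.cl
  rw [List.getD_eq_getElem _ _ c.isLt]
  exact List.getElem_mem _

private lemma pos_add_AT (P : Fin 3 → ℂ) (w : ℂ) (h : Pos P) : Pos (fun s => P s + w) := by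
  unfold Pos ht at *
  simp only [add_sub_add_right_eq_sub]
  exact h

private lemma ne_AT (hM : Sound M β e Γ) {p q : Q} (h : sgD M p q ≠ 0) : e p ≠ e q := by
  intro h'
  unfold sgD at h
  have key : ∀ z w : ℂ, z = w → ht (e M.zero) z w = 0 := by
    rintro z w rfl
    unfold ht
    rcases eq_or_ne (z - e M.zero) 0 with h0 | h0
    · rw [h0]
      simp
    · rw [div_self h0]
      simp
  split_ifs at h with h1 h2
  · have := hM.pos _ _ _ h1
    rw [key _ _ h'] at this
    exact lt_irrefl _ this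
  · have := hM.pos _ _ _ h2
    rw [key _ _ h'.symm] at this
    exact lt_irrefl _ this
  · exact h rfl

theorem m_AT (hg : StGG) (g1 : StGP) (g2 : StGW) (g3 : StGT) (g4 : StGE) (hn : StNB) (hc : StCH)
    (hw : StWI) (hv : StVL) (ht : StTL) : StAT := by
  intro Q M β e Γ hM X hX
  unfold Cert.check at hX
  simp only [Bool.and_eq_true] at hX
  obtain ⟨hG, hN, hC, hS⟩ := hX
  -- the clusters
  have hGL : ∀ c ∈ X.CS, X.okG M c = true ∧ X.okL M c = true := by
    unfold Cert.chkG at hG
    rw [List.all_eq_true] at hG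
    intro c hc
    have := hG c hc
    rwa [Bool.and_eq_true] at this
  have G1 : ∀ c : Fin X.CS.length, X.Good1 M e (X.cl c.val) := fun c =>
    hg Q M β e Γ hM X _ (hGL _ (cl_mem X c)).1
  have hG2 : ∀ c : CD, X.okL M c = true → X.Good2 M e Γ c := by
    intro c h
    cases c with
    | P t => exact g1 Q M β e Γ hM X t h
    | W s t0 t1 => exact g2 Q M β e Γ hM X s t0 t1 h
    | T t0 t1 t2 t3 => exact g3 Q M β e Γ hM X t0 t1 t2 t3 h
    | E t0 t1 t2 => exact g4 Q M β e Γ hM X t0 t1 t2 h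
  have G2 : ∀ c : Fin X.CS.length, X.Good2 M e Γ (X.cl c.val) := fun c =>
    hG2 _ (hGL _ (cl_mem X c)).2
  -- the neighbours
  have hnb := hn Q M β e Γ hM X hN G1
  choose nj nt nm h1 h2 h3 h4 h5 using hnb
  refine ⟨fun i s => (nj i s, nt i s, nm i s), ?_⟩
  have hchk := hS
  unfold Cert.chkS at hchk
  simp only [Bool.and_eq_true, decide_eq_true_eq, List.all_eq_true] at hchk
  have htil : Tiling (Ix (X.C M e)) (TT (X.C M e)) β (fun i s => (nj i s, nt i s, nm i s)) := by
    refine ht (Ix (X.C M e)) (TT (X.C M e)) β (fun i s => (nj i s, nt i s, nm i s))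
      ((cyc X.seam).map (fun a => (X.pt M e a.1, X.pt M e a.2))) hM.one_lt
      ?_ ?_ h1 h2 (hc Q M β e Γ hM X hC G1) (hw Q M β e Γ hM X hS).1 ?_ (hw Q M β e Γ hM X hS).2
    · intro i
      exact pos_add_AT _ _ (G1 i.1).2.1
    · intro i
      exact (G1 i.1).2.2.2 i.2
    · intro a ha
      rw [List.mem_map] at ha
      obtain ⟨a', ha1, rfl⟩ := ha
      exact ne_AT hM (hchk.2.1 a' ha1).2
  exact
    { tiling := htil
      lat := fun l k u hu => hM.ga l k u hu
      ok := fun c => (G2 c).1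
      fok := fun i s => (G2 i.1).2.2.2 i.2 s
      form := fun i s t ht0 ht1 => (G2 i.1).2.1 i.2 s t ht0 ht1
      edge := fun i s => h3 i s
      vert := fun i s => (G2 i.1).2.2.1 i.2 s
      vlab := fun i s i' s' k h => hv _ _ _ _ htil (X.lab M e) h4 h5 i s i' s' k h }

end Pool.Agent.Helper56.FM
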