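import Pool.Agent.Helper56.FM.Fam

/-!
# Project FM, module CP: trace and determinant of the matrices of the family `β³ + β² + β = s`

Adaptation of the module CHP of project TRI (there `s = 1`).
-/

set_option autoImplicit false

open Set Filter Topology Matrix
open Pool.Agent.Helper54.Wav

noncomputable section

namespace Pool.Agent.Helper56.FM

open Pool.Agent.Helper54.TRI

/-- The cubic polynomial `x³ + x² + x` is injective. -/
private theorem inj_CP {x y : ℝ} (h : x ^ 3 + x ^ 2 + x = y ^ 3 + y ^ 2 + y) : x = y := by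
  have h1 : (x - y) * ((x + y / 2 + 1 / 2) ^ 2 + (3 / 4 * y ^ 2 + y / 2 + 3 / 4)) = 0 := by
    linarith
  rcases mul_eq_zero.1 h1 with h | h
  · linarith
  · exfalso
    nlinarith [sq_nonneg (x + y / 2 + 1 / 2), sq_nonneg (y + 1), sq_nonneg y]

/-- MODULE CP. -/
theorem m_CP (hr : StRF) : StCP := by
  intro s r β hF hs A hE hA
  obtain ⟨hre, hns, -, -⟩ := hr.1 s r β hF
  have hrs := hF.real
  have hr0 := hF.pos
  rw [hre, hns]
  -- the entries
  obtain ⟨a, ha⟩ : ∃ a : ℝ, a = A 0 0 := ⟨_, rfl⟩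
  obtain ⟨b, hb⟩ : ∃ b : ℝ, b = A 0 1 := ⟨_, rfl⟩
  obtain ⟨c, hc⟩ : ∃ c : ℝ, c = A 1 0 := ⟨_, rfl⟩
  obtain ⟨d, hd⟩ : ∃ d : ℝ, d = A 1 1 := ⟨_, rfl⟩
  obtain ⟨t, ht⟩ : ∃ t : ℝ, t = (s : ℝ) := ⟨_, rfl⟩
  rw [← ht] at hrs hA
  have hT : A.trace = a + d := by rw [Matrix.trace_fin_two, ha, hd]
  have hD : A.det = a * d - b * c := by rw [Matrix.det_fin_two, ha, hb, hc, hd]
  have e00 := congrFun (congrFun hA 0) 0
  have e01 := congrFun (congrFun hA 0) 1
  have e10 := congrFun (congrFun hA 1) 0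
  have e11 := congrFun (congrFun hA 1) 1
  simp only [pow_succ, pow_zero, one_mul, Matrix.add_apply, Matrix.mul_apply, Fin.sum_univ_two,
    Matrix.smul_apply, smul_eq_mul, Matrix.one_apply_eq, ← ha, ← hb, ← hc, ← hd]
    at e00 e01 e10 e11
  rw [Matrix.one_apply_ne (by decide)] at e01 e10
  have f01 : b * ((a + d) ^ 2 - (a * d - b * c) + (a + d) + 1) = 0 := by linarith
  have f10 : c * ((a + d) ^ 2 - (a * d - b * c) + (a + d) + 1) = 0 := by linarith
  have f00 : a * ((a + d) ^ 2 - (a * d - b * c) + (a + d) + 1) =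
      (a + d) * (a * d - b * c) + (a * d - b * c) + t := by linarith
  have f11 : d * ((a + d) ^ 2 - (a * d - b * c) + (a + d) + 1) =
      (a + d) * (a * d - b * c) + (a * d - b * c) + t := by linarith
  by_cases hK : (a + d) ^ 2 - (a * d - b * c) + (a + d) + 1 = 0
  · rw [hK, mul_zero] at f00
    have h1 : a * d - b * c = (a + d) ^ 2 + (a + d) + 1 := by linarith
    have hcub : (-(1 + (a + d))) ^ 3 + (-(1 + (a + d))) ^ 2 + (-(1 + (a + d))) =
        r ^ 3 + r ^ 2 + r := by
      rw [hrs]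
      rw [h1] at f00
      linarith
    have hx := inj_CP hcub
    have hTT : a + d = -(1 + r) := by linarith
    refine ⟨by rw [hT, hTT], ?_⟩
    rw [hD, h1, hTT]
    ring
  · exfalso
    have hb0 : b = 0 := (mul_eq_zero.1 f01).resolve_right hK
    have hc0 : c = 0 := (mul_eq_zero.1 f10).resolve_right hK
    have had : a = d := by
      have h1 : (a - d) * ((a + d) ^ 2 - (a * d - b * c) + (a + d) + 1) = 0 := by linarith
      have := (mul_eq_zero.1 h1).resolve_right hK
      linarith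
    have hroot : (A.map (algebraMap ℝ ℂ)).charpoly.IsRoot ((a : ℝ) : ℂ) := by
      rw [Matrix.charpoly_fin_two]
      simp only [Polynomial.IsRoot.def, Polynomial.eval_add, Polynomial.eval_sub,
        Polynomial.eval_pow, Polynomial.eval_mul, Polynomial.eval_X, Polynomial.eval_C,
        Matrix.trace_fin_two, Matrix.det_fin_two, Matrix.map_apply, ← ha, ← hb, ← hc, ← hd,
        hb0, hc0, ← had, map_zero]
      change (a : ℂ) ^ 2 - ((a : ℂ) + (a : ℂ)) * (a : ℂ) + ((a : ℂ) * (a : ℂ) - 0 * 0) = 0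
      ring
    have h1 := hE _ (Matrix.mem_spectrum_of_isRoot_charpoly hroot)
    rw [Complex.norm_real, Real.norm_eq_abs] at h1
    have h2 : a ^ 3 + a ^ 2 + a = r ^ 3 + r ^ 2 + r := by
      rw [hrs]
      rw [hb0, hc0] at e00
      linarith
    have h3 := inj_CP h2
    rw [h3, abs_of_pos hr0] at h1
    have h4 : t < 3 := by
      rw [ht]
      exact_mod_cast hs
    nlinarith [mul_pos hr0 hr0, mul_pos (mul_pos hr0 hr0) hr0]

end Pool.Agent.Helper56.FM
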