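import Mathlib

/-!
# Project FM: integer polynomials as lists (low degree first) and a positivity test on intervals
-/

set_option autoImplicit false

namespace Pool.Agent.Helper56.FM

/-- Integer polynomials, low degree first. -/
abbrev Po : Type := List ℤ

def padd : Po → Po → Po
  | [], b => b
  | x :: a, [] => x :: a
  | x :: a, y :: b => (x + y) :: padd a b

def psc (c : ℤ) (a : Po) : Po := a.map (fun x => c * x)

def pneg (a : Po) : Po := a.map (fun x => -x)

def psub (a b : Po) : Po := padd a (pneg b)

def pmul : Po → Po → Po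
  | [], _ => []
  | x :: a, b => padd (psc x b) (0 :: pmul a b)

/-- Composition `a ∘ b`. -/
def pcomp : Po → Po → Po
  | [], _ => []
  | x :: a, b => padd [x] (pmul b (pcomp a b))

/-- Formal zero. -/
def pz (a : Po) : Bool := a.all fun x => decide (x = 0)

/-- Evaluation. -/
def pev {R : Type} [CommRing R] : Po → R → R
  | [], _ => 0
  | c :: t, x => (c : R) + x * pev t x

section ring
variable {R : Type} [CommRing R]

@[simp] theorem pev_nil (x : R) : pev [] x = 0 := rfl

@[simp] theorem pev_cons (c : ℤ) (t : Po) (x : R) : pev (c :: t) x = (c : R) + x * pev t x := rfl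

theorem pev_padd (a b : Po) (x : R) : pev (padd a b) x = pev a x + pev b x := by
  induction a generalizing b with
  | nil => simp [padd]
  | cons c a ih =>
    cases b with
    | nil => simp [padd]
    | cons d b =>
      simp only [padd, pev_cons, ih]
      push_cast
      ring

theorem pev_psc (c : ℤ) (a : Po) (x : R) : pev (psc c a) x = (c : R) * pev a x := by
  induction a with
  | nil => simp [psc]
  | cons d a ih =>
    have : psc c (d :: a) = (c * d) :: psc c a := rfl
    rw [this, pev_cons, pev_cons, ih]
    push_cast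
    ring

theorem pev_pneg (a : Po) (x : R) : pev (pneg a) x = - pev a x := by
  induction a with
  | nil => simp [pneg]
  | cons d a ih =>
    have : pneg (d :: a) = (-d) :: pneg a := rfl
    rw [this, pev_cons, pev_cons, ih]
    push_cast
    ring

theorem pev_psub (a b : Po) (x : R) : pev (psub a b) x = pev a x - pev b x := by
  rw [psub, pev_padd, pev_pneg, sub_eq_add_neg]

theorem pev_pmul (a b : Po) (x : R) : pev (pmul a b) x = pev a x * pev b x := by
  induction a with
  | nil => simp [pmul]
  | cons c a ih =>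
    simp only [pmul, pev_padd, pev_psc, pev_cons, ih]
    push_cast
    ring

theorem pev_pcomp (a b : Po) (x : R) : pev (pcomp a b) x = pev a (pev b x) := by
  induction a with
  | nil => simp [pcomp]
  | cons c a ih =>
    simp only [pcomp, pev_padd, pev_pmul, pev_cons, pev_nil, ih]
    ring

theorem pev_pz (a : Po) (h : pz a = true) (x : R) : pev a x = 0 := by
  induction a with
  | nil => rfl
  | cons c a ih =>
    unfold pz at h ih
    rw [List.all_cons, Bool.and_eq_true, decide_eq_true_eq] at h
    rw [pev_cons, ih h.2, h.1]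
    simp

end ring

/-- `(Q, M)` with `Q(y) = M P((c + y)/N)`. -/
def sft (c N : ℤ) : Po → Po × ℤ
  | [] => ([], 1)
  | a :: P =>
      let r := sft c N P
      (padd [N * r.2 * a] (padd (psc c r.1) (0 :: r.1)), N * r.2)

/-- Sum of the absolute values. -/
def pabs (t : Po) : ℤ := (t.map (fun x => (x.natAbs : ℤ))).sum

/-- Positivity of `P` on `|N x - c| ≤ 1` (sufficient test). -/
def posI (c N : ℤ) (P : Po) : Bool :=
  match (sft c N P).1 with
  | [] => false
  | q :: t => decide (pabs t < q)

/-- Positivity of `P` on the intervals `|N x - c| ≤ 1`, `c ∈ cs`. -/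
def posP (cs : List ℤ) (N : ℤ) (P : Po) : Bool := cs.all fun c => posI c N P

theorem sft_pos (c N : ℤ) (hN : 0 < N) (P : Po) : 0 < (sft c N P).2 := by
  induction P with
  | nil => simp [sft]
  | cons a P ih =>
    simp only [sft]
    exact mul_pos hN ih

theorem sft_spec (c N : ℤ) (hN : 0 < N) (P : Po) (y : ℝ) :
    pev (sft c N P).1 y = ((sft c N P).2 : ℝ) * pev P (((c : ℝ) + y) / N) := by
  have hN' : (N : ℝ) ≠ 0 := by exact_mod_cast hN.ne'
  induction P with
  | nil => simp [sft]
  | cons a P ih =>
    simp only [sft, pev_padd, pev_psc, pev_cons, pev_nil, ih]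
    push_cast
    field_simp
    ring

theorem pabs_spec (t : Po) (y : ℝ) (hy : |y| ≤ 1) : |pev t y| ≤ (pabs t : ℝ) := by
  induction t with
  | nil => simp [pabs]
  | cons c t ih =>
    have h1 : pabs (c :: t) = (c.natAbs : ℤ) + pabs t := rfl
    rw [h1, pev_cons]
    have h2 : |(c : ℝ) + y * pev t y| ≤ |(c : ℝ)| + |y * pev t y| := abs_add_le _ _
    have h3 : |y * pev t y| ≤ |pev t y| := by
      rw [abs_mul]
      exact mul_le_of_le_one_left (abs_nonneg _) hy
    have h4 : ((c.natAbs : ℤ) : ℝ) = |(c : ℝ)| := by
      rw [Int.natCast_natAbs, Int.cast_abs]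
    push_cast at h4 ⊢
    rw [h4]
    linarith

theorem posI_spec (c N : ℤ) (hN : 0 < N) (P : Po) (h : posI c N P = true) (x : ℝ)
    (hx : |(N : ℝ) * x - c| ≤ 1) : 0 < pev P x := by
  have hN' : (0 : ℝ) < N := by exact_mod_cast hN
  have hxe : x = ((c : ℝ) + ((N : ℝ) * x - c)) / N := by
    field_simp
    ring
  have hs := sft_spec c N hN P ((N : ℝ) * x - c)
  rw [← hxe] at hs
  have hM : (0 : ℝ) < ((sft c N P).2 : ℝ) := by exact_mod_cast sft_pos c N hN P
  unfold posI at h
  cases hq : (sft c N P).1 with
  | nil => rw [hq] at h; simp at h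
  | cons q t =>
    rw [hq] at h hs
    simp only [decide_eq_true_eq] at h
    have h1 : (pabs t : ℝ) < q := by exact_mod_cast h
    have h2 := pabs_spec t _ hx
    rw [pev_cons] at hs
    have h3 : |((N : ℝ) * x - c) * pev t ((N : ℝ) * x - c)| ≤ |pev t ((N : ℝ) * x - c)| := by
      rw [abs_mul]
      exact mul_le_of_le_one_left (abs_nonneg _) hx
    have h4 : 0 < (q : ℝ) + ((N : ℝ) * x - c) * pev t ((N : ℝ) * x - c) := by
      have := neg_abs_le (((N : ℝ) * x - c) * pev t ((N : ℝ) * x - c))
      linarith
    rw [hs] at h4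
    exact (mul_pos_iff_of_pos_left hM).1 h4

theorem posP_spec (cs : List ℤ) (N : ℤ) (hN : 0 < N) (P : Po) (h : posP cs N P = true) (x : ℝ)
    (hx : ∃ c ∈ cs, |(N : ℝ) * x - c| ≤ 1) : 0 < pev P x := by
  obtain ⟨c, hc, hx⟩ := hx
  unfold posP at h
  rw [List.all_eq_true] at h
  exact posI_spec c N hN P (h c hc) x hx

end Pool.Agent.Helper56.FM
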